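import Pool.Agent.Helper947_Fin.Bridge

set_option autoImplicit false

/-!
From subdivisions of the mixed orthants to `τ`-tilting finiteness, for at most three
indecomposable projectives.
-/

namespace Pool.Agent.Helper947_Fin

open Pool.Agent.Helper391_TT

universe u

section abstract

variable {L : Type*} [AddCommGroup L] {E : L → L → ℕ}

theorem Ax.zeroL (hE : Ax E) (y : L) : E 0 y = 0 := by
  have := hE.homL 2 0 y
  rw [smul_zero] at this
  omega

theorem Ax.zeroR (hE : Ax E) (y : L) : E y 0 = 0 := by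
  have := hE.homR 2 y 0
  rw [smul_zero] at this
  omega

theorem Ax.mulL (hE : Ax E) (m : ℕ) (x y : L) : E (m • x) y ≤ m * E x y := by
  rcases Nat.eq_zero_or_pos m with rfl | hm
  · rw [zero_smul, hE.zeroL]; omega
  · exact hE.smulL x y m hm

theorem Ax.mulR (hE : Ax E) (m : ℕ) (x y : L) : E x (m • y) ≤ m * E x y := by
  rcases Nat.eq_zero_or_pos m with rfl | hm
  · rw [zero_smul, hE.zeroR]; omega
  · exact hE.smulR x y m hm

/-- the dual invariant -/
theorem Ax.dual (hE : Ax E) : Ax (fun x y => E (-y) (-x)) where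
  subL x x' y := by
    have := hE.subR (-y) (-x) (-x')
    rwa [← neg_add] at this
  subR x y y' := by
    have := hE.subL (-y) (-y') (-x)
    rwa [← neg_add] at this
  desL x y := by
    have := hE.desR (-y) (-x)
    rwa [← neg_add, add_comm y x] at this
  desR x y := by
    have := hE.desL (-y) (-x)
    rwa [← neg_add, add_comm y x] at this
  homL m x y := by
    have := hE.homR m (-y) (-x)
    rwa [smul_neg] at this
  homR m x y := by
    have := hE.homL m (-y) (-x)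
    rwa [smul_neg] at this
  diag x := hE.diag (-x)

theorem Good.dual {u v w : L} (h : Good (fun x y => E (-y) (-x)) u v w) :
    Good E (-u) (-v) (-w) := by
  induction h with
  | leaf0 u v w h1 h2 h3 h4 => exact Good.leaf0 _ _ _ h2 h1 h4 h3
  | leaf1 u v w h1 h2 h3 h4 => exact Good.leaf1 _ _ _ h2 h1 h4 h3
  | leaf2 u v w h1 h2 h3 h4 => exact Good.leaf2 _ _ _ h2 h1 h4 h3
  | split0 u v w _ _ ih1 ih2 =>
    rw [neg_add] at ih1 ih2
    exact Good.split0 _ _ _ ih1 ih2
  | split1 u v w _ _ ih1 ih2 =>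
    rw [neg_add] at ih1 ih2
    exact Good.split1 _ _ _ ih1 ih2
  | split2 u v w _ _ ih1 ih2 =>
    rw [neg_add] at ih1 ih2
    exact Good.split2 _ _ _ ih1 ih2

/-- the bound on the off-diagonal values -/
theorem Ax.offdiag (hE : Ax E) (g h : L) (hg : E h g = 0) (m n : ℕ) (hm : E (-g) g ≤ m)
    (hn : E (-h) h ≤ n) : E (-g) h ≤ (m - 1) + n := by
  have h1 : E (h - g) g ≤ m := by
    have := hE.subL h (-g) g
    rw [← sub_eq_add_neg, hg, zero_add] at this
    exact this.trans hm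
  have h2 : E (h - g) h ≤ m - 1 := by
    have := hE.desR (h - g) g
    rw [sub_add_cancel] at this
    exact this.trans (Nat.sub_le_sub_right h1 1)
  have h3 := hE.subL (h - g) (-h) h
  rw [show h - g + -h = -g by abel] at h3
  exact h3.trans (add_le_add h2 hn)

section bil

variable (hE : Ax E) (g : Fin 3 → L) (hP : ∀ i y, E (g i) y = 0) (hN : ∀ x i, E x (-g i) = 0)

include hE in
theorem sum_le_left (a b : Fin 3 → ℕ) (hP : ∀ i y, E (g i) y = 0) (y : L) :
    E (a 0 • g 0 + b 0 • (-g 0) + (a 1 • g 1 + b 1 • (-g 1)) + (a 2 • g 2 + b 2 • (-g 2))) y ≤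
      b 0 * E (-g 0) y + b 1 * E (-g 1) y + b 2 * E (-g 2) y := by
  have e : ∀ i : Fin 3, E (a i • g i + b i • (-g i)) y ≤ b i * E (-g i) y := fun i => by
    refine (hE.subL _ _ _).trans ?_
    have h1 := hE.mulL (a i) (g i) y
    have h2 := hE.mulL (b i) (-g i) y
    rw [hP, mul_zero] at h1
    omega
  refine (hE.subL _ _ _).trans (add_le_add ((hE.subL _ _ _).trans (add_le_add (e 0) (e 1))) (e 2))

include hE in
theorem sum_le_right (a b : Fin 3 → ℕ) (hN : ∀ x i, E x (-g i) = 0) (x : L) :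
    E x (a 0 • g 0 + b 0 • (-g 0) + (a 1 • g 1 + b 1 • (-g 1)) + (a 2 • g 2 + b 2 • (-g 2))) ≤
      a 0 * E x (g 0) + a 1 * E x (g 1) + a 2 * E x (g 2) := by
  have e : ∀ i : Fin 3, E x (a i • g i + b i • (-g i)) ≤ a i * E x (g i) := fun i => by
    refine (hE.subR _ _ _).trans ?_
    have h1 := hE.mulR (a i) x (g i)
    have h2 := hE.mulR (b i) x (-g i)
    rw [hN, mul_zero] at h2
    omega
  refine (hE.subR _ _ _).trans (add_le_add ((hE.subR _ _ _).trans (add_le_add (e 0) (e 1))) (e 2))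

/-- positive and negative parts of the coordinates of a point -/
def Pt.pos (p : Pt) : Fin 3 → ℕ := ![p.a - 1, 1 - p.b, 1 - p.c]
def Pt.neg (p : Pt) : Fin 3 → ℕ := ![1 - p.a, p.b - 1, p.c - 1]

theorem smul_parts (n : ℕ) (x : L) : ((n : ℤ) - 1) • x = (n - 1) • x + (1 - n) • (-x) := by
  rcases Nat.eq_zero_or_pos n with rfl | hn
  · simp
  · obtain ⟨m, rfl⟩ := Nat.exists_eq_add_of_le hn
    rw [Nat.add_sub_cancel_left, show 1 - (1 + m) = 0 by omega, zero_smul, add_zero]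
    push_cast
    rw [add_sub_cancel_left, natCast_zsmul]

theorem Pt.sem_parts (p : Pt) : p.sem (g 0) (g 1) (g 2) =
    p.pos 0 • g 0 + p.neg 0 • (-g 0) + (p.pos 1 • g 1 + p.neg 1 • (-g 1)) +
      (p.pos 2 • g 2 + p.neg 2 • (-g 2)) := by
  unfold Pt.sem Pt.pos Pt.neg
  simp only [Matrix.cons_val_zero, Matrix.cons_val_one, Matrix.cons_val]
  rw [smul_parts p.a (g 0), smul_parts p.b (g 1), smul_parts p.c (g 2)]
  simp only [smul_neg]
  abel

/-- the bilinear bound with a matrix `D` -/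
def bilD (D : Fin 3 → Fin 3 → ℕ) (x y : Pt) : ℕ :=
  x.neg 0 * (y.pos 0 * D 0 0 + y.pos 1 * D 0 1 + y.pos 2 * D 0 2) +
    x.neg 1 * (y.pos 0 * D 1 0 + y.pos 1 * D 1 1 + y.pos 2 * D 1 2) +
    x.neg 2 * (y.pos 0 * D 2 0 + y.pos 1 * D 2 1 + y.pos 2 * D 2 2)

include hE hP hN in
theorem le_bilD (D : Fin 3 → Fin 3 → ℕ) (hD : ∀ i j, E (-g i) (g j) ≤ D i j) (x y : Pt) :
    E (x.sem (g 0) (g 1) (g 2)) (y.sem (g 0) (g 1) (g 2)) ≤ bilD D x y := by
  have e : ∀ i, E (-g i) (y.sem (g 0) (g 1) (g 2)) ≤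
      y.pos 0 * D i 0 + y.pos 1 * D i 1 + y.pos 2 * D i 2 := fun i => by
    rw [Pt.sem_parts]
    refine (sum_le_right hE g _ _ hN _).trans ?_
    exact add_le_add (add_le_add (Nat.mul_le_mul_left _ (hD i 0)) (Nat.mul_le_mul_left _ (hD i 1)))
      (Nat.mul_le_mul_left _ (hD i 2))
  rw [Pt.sem_parts g x]
  refine (sum_le_left hE g _ _ hP _).trans ?_
  exact add_le_add (add_le_add (Nat.mul_le_mul_left _ (e 0)) (Nat.mul_le_mul_left _ (e 1)))
    (Nat.mul_le_mul_left _ (e 2))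

end bil

end abstract

section final

variable {k A : Type u} [Field k] [Ring A] [Algebra k A] {ι : Type} [Fintype ι] [DecidableEq ι]
  (B : ProjBasis k A ι) (F : (ι → ℤ) → Obj k A) (hF : ∀ x, Rigid (F x) ∧ B.Cls (F x) x)

include hF in
/-- it is enough to subdivide the six mixed orthants -/
theorem finite_of_good [Module.Finite k A] (i j l : ι) (hall : ∀ a, a = i ∨ a = j ∨ a = l)
    (h1 : ∀ a b c : ι, ({a, b, c} : Finset ι) ⊆ {i, j, l} →
      Good (EE F) (bv a) (-bv b) (-bv c))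
    (h2 : ∀ a b c : ι, ({a, b, c} : Finset ι) ⊆ {i, j, l} →
      Good (EE F) (-bv a) (bv b) (bv c)) : TauTiltingFinite k A := by
  apply tauTiltingFinite_of_finS B
  have c0 : FinS B (cone3 (bv i) (bv j) (bv l)) := finS_of_good B F hF
    (Good.leaf0 _ _ _ (EE_pos B F hF _ _) (EE_pos B F hF _ _) (EE_pos B F hF _ _)
      (EE_pos B F hF _ _))
  have c0' : FinS B (cone3 (-bv i) (-bv j) (-bv l)) := finS_of_good B F hF
    (Good.leaf0 _ _ _ (EE_neg B F hF _ _) (EE_neg B F hF _ _) (EE_neg B F hF _ _)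
      (EE_neg B F hF _ _))
  have hs : ∀ a b c : ι, a ∈ ({i, j, l} : Finset ι) → b ∈ ({i, j, l} : Finset ι) →
      c ∈ ({i, j, l} : Finset ι) → ({a, b, c} : Finset ι) ⊆ {i, j, l} := by
    intro a b c ha hb hc x hx
    simp only [Finset.mem_insert, Finset.mem_singleton] at hx
    rcases hx with rfl | rfl | rfl
    · exact ha
    · exact hb
    · exact hc
  have mi : i ∈ ({i, j, l} : Finset ι) := by simp
  have mj : j ∈ ({i, j, l} : Finset ι) := by simp
  have ml : l ∈ ({i, j, l} : Finset ι) := by simp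
  have d1 := finS_of_good B F hF (h1 i j l (hs _ _ _ mi mj ml))
  have d2 := finS_of_good B F hF (h1 j i l (hs _ _ _ mj mi ml))
  have d3 := finS_of_good B F hF (h1 l i j (hs _ _ _ ml mi mj))
  have d4 := finS_of_good B F hF (h2 i j l (hs _ _ _ mi mj ml))
  have d5 := finS_of_good B F hF (h2 j i l (hs _ _ _ mj mi ml))
  have d6 := finS_of_good B F hF (h2 l i j (hs _ _ _ ml mi mj))
  refine FinS.mono B (((((((c0.union B c0').union B d1).union B d2).union B d3).union B
    d4).union B d5).union B d6) ?_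
  intro x _
  -- integer coordinates
  obtain ⟨a, b, c, hx⟩ : ∃ a b c : ℤ, x = a • bv i + b • bv j + c • bv l := by
    refine ⟨x i, if j = i then 0 else x j, if l = i ∨ l = j then 0 else x l, ?_⟩
    funext m
    simp only [Pi.add_apply, Pi.smul_apply, bv, Pi.single_apply, smul_eq_mul, mul_ite, mul_one,
      mul_zero]
    rcases hall m with h | h | h <;> by_cases hij : i = j <;> by_cases hil : i = l <;>
      by_cases hjl : j = l <;> simp_all [eq_comm]
  have ip : ∀ z : ℤ, (∃ n : ℕ, z = n) ∨ ∃ n : ℕ, z = -n := fun z => by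
    obtain ⟨n, rfl | rfl⟩ := z.eq_nat_or_neg
    · exact Or.inl ⟨n, rfl⟩
    · exact Or.inr ⟨n, rfl⟩
  have sp : ∀ (n : ℕ) (y : ι → ℤ), (n : ℤ) • y = n • y := fun n y => natCast_zsmul y n
  have sn : ∀ (n : ℕ) (y : ι → ℤ), (-(n : ℤ)) • y = n • (-y) := fun n y => by
    rw [neg_smul, smul_neg, natCast_zsmul]
  simp only [Set.mem_union]
  rcases ip a with ⟨a, rfl⟩ | ⟨a, rfl⟩ <;> rcases ip b with ⟨b, rfl⟩ | ⟨b, rfl⟩ <;>
    rcases ip c with ⟨c, rfl⟩ | ⟨c, rfl⟩ <;> simp only [sp, sn] at hx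
  · exact Or.inl (Or.inl (Or.inl (Or.inl (Or.inl (Or.inl (Or.inl ⟨a, b, c, hx⟩))))))
  · exact Or.inr ⟨c, a, b, by rw [hx]; abel⟩
  · exact Or.inl (Or.inr ⟨b, a, c, by rw [hx]; abel⟩)
  · exact Or.inl (Or.inl (Or.inl (Or.inl (Or.inl (Or.inr ⟨a, b, c, hx⟩)))))
  · exact Or.inl (Or.inl (Or.inr ⟨a, b, c, hx⟩))
  · exact Or.inl (Or.inl (Or.inl (Or.inl (Or.inr ⟨b, a, c, by rw [hx]; abel⟩))))
  · exact Or.inl (Or.inl (Or.inl (Or.inr ⟨c, a, b, by rw [hx]; abel⟩)))
  · exact Or.inl (Or.inl (Or.inl (Or.inl (Or.inl (Or.inl (Or.inr ⟨a, b, c, hx⟩))))))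

end final

end Pool.Agent.Helper947_Fin
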