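import Mathlib

set_option autoImplicit false

/-!
An abstract `E`-invariant on an abelian group, and a kernel-checkable certificate format for
covering a three dimensional lattice cone by cones with pairwise compatible pieces.
-/

namespace Pool.Agent.Helper947_Fin

/-- the formal properties of the `E`-invariant when all lattice points are rigid -/
structure Ax {L : Type*} [AddCommGroup L] (E : L → L → ℕ) : Prop where
  subL : ∀ x x' y, E (x + x') y ≤ E x y + E x' y
  subR : ∀ x y y', E x (y + y') ≤ E x y + E x y'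
  desL : ∀ x y, E (x + y) y ≤ E x y - 1
  desR : ∀ x y, E x (x + y) ≤ E x y - 1
  homL : ∀ (m : ℕ) x y, m * E x y ≤ E (m • x) y
  homR : ∀ (m : ℕ) x y, m * E x y ≤ E x (m • y)
  diag : ∀ x, E x x = 0

theorem Ax.smulL {L : Type*} [AddCommGroup L] {E : L → L → ℕ} (hE : Ax E) (x y : L) (m : ℕ)
    (hm : 1 ≤ m) : E (m • x) y ≤ m * E x y := by
  induction m, hm using Nat.le_induction with
  | base => simp
  | succ m hm ih =>
    rw [succ_nsmul, Nat.succ_mul]
    exact (hE.subL _ _ _).trans (Nat.add_le_add_right ih _)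

theorem Ax.smulR {L : Type*} [AddCommGroup L] {E : L → L → ℕ} (hE : Ax E) (x y : L) (m : ℕ)
    (hm : 1 ≤ m) : E x (m • y) ≤ m * E x y := by
  induction m, hm using Nat.le_induction with
  | base => simp
  | succ m hm ih =>
    rw [succ_nsmul, Nat.succ_mul]
    exact (hE.subR _ _ _).trans (Nat.add_le_add_right ih _)

/-- cones generated by three lattice points with a subdivision into cones with a vertex
compatible with the other two -/
inductive Good {L : Type*} [AddCommGroup L] (E : L → L → ℕ) : L → L → L → Prop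
  | leaf0 (u v w : L) : E u v = 0 → E v u = 0 → E u w = 0 → E w u = 0 → Good E u v w
  | leaf1 (u v w : L) : E v w = 0 → E w v = 0 → E v u = 0 → E u v = 0 → Good E u v w
  | leaf2 (u v w : L) : E w u = 0 → E u w = 0 → E w v = 0 → E v w = 0 → Good E u v w
  | split0 (u v w : L) : Good E u (u + v) w → Good E (u + v) v w → Good E u v w
  | split1 (u v w : L) : Good E u v (u + w) → Good E (u + w) v w → Good E u v w
  | split2 (u v w : L) : Good E u v (v + w) → Good E u (v + w) w → Good E u v w

/-- points, in coordinates shifted by one -/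
structure Pt where
  a : ℕ
  b : ℕ
  c : ℕ

def Pt.beq (p q : Pt) : Bool := Nat.beq p.a q.a && Nat.beq p.b q.b && Nat.beq p.c q.c

theorem Pt.eq_of_beq {p q : Pt} (h : p.beq q = true) : p = q := by
  cases p
  cases q
  simp only [Pt.beq, Bool.and_eq_true, Nat.beq_eq] at h
  obtain ⟨⟨h1, h2⟩, h3⟩ := h
  subst h1 h2 h3
  rfl

def Pt.add (p q : Pt) : Option Pt :=
  bif Nat.ble 1 (p.a + q.a) && Nat.ble 1 (p.b + q.b) && Nat.ble 1 (p.c + q.c) then
    some ⟨p.a + q.a - 1, p.b + q.b - 1, p.c + q.c - 1⟩ else none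

/-- `p` is `m` times `q` -/
def Pt.isMul (m : ℕ) (q p : Pt) : Bool :=
  Nat.beq (p.a + m) (m * q.a + 1) && Nat.beq (p.b + m) (m * q.b + 1) &&
    Nat.beq (p.c + m) (m * q.c + 1)

structure Fact where
  x : Pt
  y : Pt
  n : ℕ

inductive Step
  | ini (x y : Pt)
  | dia (x y w : Pt) (m n : ℕ)
  | sl (i j : ℕ)
  | sr (i j : ℕ)
  | dl (i : ℕ)
  | dr (i : ℕ)
  | hl (i m : ℕ) (x : Pt)
  | hr (i m : ℕ) (x : Pt)

inductive FT
  | nil
  | node (f : Fact) (l r : FT)

def FT.get : FT → ℕ → Option Fact
  | .nil, _ => none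
  | .node f l r, n => bif Nat.beq n 0 then some f else
      bif Nat.beq ((n - 1) % 2) 0 then l.get ((n - 1) / 2) else r.get ((n - 1) / 2)

def FT.put : FT → ℕ → Fact → FT
  | .nil, _, f => .node f .nil .nil
  | .node g l r, n, f =>
      bif Nat.beq ((n - 1) % 2) 0 then .node g (l.put ((n - 1) / 2) f) r
      else .node g l (r.put ((n - 1) / 2) f)

def FT.All (Q : Fact → Prop) : FT → Prop
  | .nil => True
  | .node f l r => Q f ∧ l.All Q ∧ r.All Q

theorem FT.All.get {Q : Fact → Prop} : ∀ {t : FT} {n : ℕ} {f : Fact}, t.All Q →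
    t.get n = some f → Q f
  | .nil, n, f, _, h => by simp [FT.get] at h
  | .node g l r, n, f, hQ, h => by
    obtain ⟨h0, h1, h2⟩ := hQ
    unfold FT.get at h
    cases hc : Nat.beq n 0 with
    | true =>
      rw [hc, cond_true] at h
      cases h
      exact h0
    | false =>
      rw [hc, cond_false] at h
      cases hd : Nat.beq ((n - 1) % 2) 0 with
      | true =>
        rw [hd, cond_true] at h
        exact FT.All.get h1 h
      | false =>
        rw [hd, cond_false] at h
        exact FT.All.get h2 h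

theorem FT.All.put {Q : Fact → Prop} : ∀ {t : FT} (n : ℕ) {f : Fact}, t.All Q → Q f →
    (t.put n f).All Q
  | .nil, n, f, _, hf => ⟨hf, trivial, trivial⟩
  | .node g l r, n, f, hQ, hf => by
    obtain ⟨h0, h1, h2⟩ := hQ
    unfold FT.put
    cases hd : Nat.beq ((n - 1) % 2) 0 with
    | true =>
      rw [cond_true]
      exact ⟨h0, FT.All.put _ h1 hf, h2⟩
    | false =>
      rw [cond_false]
      exact ⟨h0, h1, FT.All.put _ h2 hf⟩

section eval

variable (ini : Pt → Pt → Option ℕ)

/-- the new fact derived by a step -/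
def Step.eval (t : FT) : Step → Option Fact
  | .ini x y => (ini x y).map fun n => ⟨x, y, n⟩
  | .dia x y w m n => bif w.isMul m x && w.isMul n y && Nat.ble 1 m && Nat.ble 1 n then
      some ⟨x, y, 0⟩ else none
  | .sl i j => (t.get i).bind fun f => (t.get j).bind fun g =>
      bif f.y.beq g.y then (f.x.add g.x).map fun z => ⟨z, f.y, f.n + g.n⟩ else none
  | .sr i j => (t.get i).bind fun f => (t.get j).bind fun g =>
      bif f.x.beq g.x then (f.y.add g.y).map fun z => ⟨f.x, z, f.n + g.n⟩ else none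
  | .dl i => (t.get i).bind fun f => (f.x.add f.y).map fun z => ⟨z, f.y, f.n - 1⟩
  | .dr i => (t.get i).bind fun f => (f.x.add f.y).map fun z => ⟨f.x, z, f.n - 1⟩
  | .hl i m x => (t.get i).bind fun f =>
      bif Pt.isMul m x f.x && Nat.ble 1 m then some ⟨x, f.y, f.n / m⟩ else none
  | .hr i m x => (t.get i).bind fun f =>
      bif Pt.isMul m x f.y && Nat.ble 1 m then some ⟨f.x, x, f.n / m⟩ else none

def run : List Step → FT → ℕ → Option FT
  | [], t, _ => some t
  | s :: l, t, n => (s.eval ini t).bind fun f => run l (t.put n f) (n + 1)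

end eval

inductive Tree
  | leaf (c i j k l : ℕ)
  | split (e : ℕ) (t₁ t₂ : Tree)

/-- the fact number `i` says `E x y = 0` -/
def zeroFact (t : FT) (i : ℕ) (x y : Pt) : Bool :=
  match t.get i with
  | none => false
  | some f => f.x.beq x && f.y.beq y && Nat.beq f.n 0

def Tree.check (t : FT) : Tree → Pt → Pt → Pt → Bool
  | .leaf c i j k l, u, v, w =>
      bif Nat.beq c 0 then zeroFact t i u v && zeroFact t j v u && zeroFact t k u w &&
        zeroFact t l w u
      else bif Nat.beq c 1 then zeroFact t i v w && zeroFact t j w v && zeroFact t k v u &&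
        zeroFact t l u v
      else zeroFact t i w u && zeroFact t j u w && zeroFact t k w v && zeroFact t l v w
  | .split e t₁ t₂, u, v, w =>
      bif Nat.beq e 0 then
        match u.add v with
        | none => false
        | some s => t₁.check t u s w && t₂.check t s v w
      else bif Nat.beq e 1 then
        match u.add w with
        | none => false
        | some s => t₁.check t u v s && t₂.check t s v w
      else
        match v.add w with
        | none => false
        | some s => t₁.check t u v s && t₂.check t u s w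

def checkAll (ini : Pt → Pt → Option ℕ) (l : List Step) (tr : Tree) (u v w : Pt) : Bool :=
  match run ini l .nil 0 with
  | none => false
  | some t => tr.check t u v w

section sound

variable {L : Type*} [AddCommGroup L] (g₀ g₁ g₂ : L)

def Pt.sem (p : Pt) : L :=
  ((p.a : ℤ) - 1) • g₀ - ((p.b : ℤ) - 1) • g₁ - ((p.c : ℤ) - 1) • g₂

theorem Pt.sem_add {p q r : Pt} (h : p.add q = some r) :
    r.sem g₀ g₁ g₂ = p.sem g₀ g₁ g₂ + q.sem g₀ g₁ g₂ := by
  unfold Pt.add at h
  cases hc : (Nat.ble 1 (p.a + q.a) && Nat.ble 1 (p.b + q.b) && Nat.ble 1 (p.c + q.c)) with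
  | false => rw [hc, cond_false] at h; cases h
  | true =>
    rw [hc, cond_true] at h
    cases h
    simp only [Bool.and_eq_true, Nat.ble_eq] at hc
    obtain ⟨⟨h1, h2⟩, h3⟩ := hc
    unfold Pt.sem
    rw [Nat.cast_sub h1, Nat.cast_sub h2, Nat.cast_sub h3]
    push_cast
    module

theorem Pt.sem_mul {m : ℕ} {q p : Pt} (h : Pt.isMul m q p = true) :
    p.sem g₀ g₁ g₂ = m • q.sem g₀ g₁ g₂ := by
  simp only [Pt.isMul, Bool.and_eq_true, Nat.beq_eq] at h
  obtain ⟨⟨h1, h2⟩, h3⟩ := h
  have e1 : (p.a : ℤ) = m * q.a + 1 - m := by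
    have : ((p.a + m : ℕ) : ℤ) = ((m * q.a + 1 : ℕ) : ℤ) := by rw [h1]
    push_cast at this
    linarith
  have e2 : (p.b : ℤ) = m * q.b + 1 - m := by
    have : ((p.b + m : ℕ) : ℤ) = ((m * q.b + 1 : ℕ) : ℤ) := by rw [h2]
    push_cast at this
    linarith
  have e3 : (p.c : ℤ) = m * q.c + 1 - m := by
    have : ((p.c + m : ℕ) : ℤ) = ((m * q.c + 1 : ℕ) : ℤ) := by rw [h3]
    push_cast at this
    linarith
  unfold Pt.sem
  rw [e1, e2, e3, ← natCast_zsmul]
  module

variable {E : L → L → ℕ} (hE : Ax E) {ini : Pt → Pt → Option ℕ}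
  (hini : ∀ x y n, ini x y = some n → E (x.sem g₀ g₁ g₂) (y.sem g₀ g₁ g₂) ≤ n)

/-- the meaning of a fact -/
def Fact.Holds (E : L → L → ℕ) (f : Fact) : Prop :=
  E (f.x.sem g₀ g₁ g₂) (f.y.sem g₀ g₁ g₂) ≤ f.n

include hE hini in
theorem Step.eval_sound {t : FT} (ht : t.All (Fact.Holds g₀ g₁ g₂ E)) (s : Step) {f : Fact}
    (h : s.eval ini t = some f) : f.Holds g₀ g₁ g₂ E := by
  cases s with
  | ini x y =>
    simp only [Step.eval, Option.map_eq_some_iff] at h
    obtain ⟨n, h1, rfl⟩ := h
    exact hini _ _ _ h1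
  | dia x y w m n =>
    simp only [Step.eval] at h
    cases hc : (w.isMul m x && w.isMul n y && Nat.ble 1 m && Nat.ble 1 n) with
    | false => rw [hc, cond_false] at h; cases h
    | true =>
      rw [hc, cond_true] at h
      cases h
      simp only [Bool.and_eq_true, Nat.ble_eq] at hc
      obtain ⟨⟨⟨h1, h2⟩, h3⟩, h4⟩ := hc
      unfold Fact.Holds
      change E (x.sem g₀ g₁ g₂) (y.sem g₀ g₁ g₂) ≤ 0
      rw [Pt.sem_mul g₀ g₁ g₂ h1, Pt.sem_mul g₀ g₁ g₂ h2]
      refine (hE.smulL _ _ m h3).trans ?_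
      have h5 := hE.smulR (w.sem g₀ g₁ g₂) (w.sem g₀ g₁ g₂) n h4
      rw [hE.diag, mul_zero] at h5
      rw [Nat.le_zero.mp h5, mul_zero]
  | sl i j =>
    simp only [Step.eval, Option.bind_eq_some_iff] at h
    obtain ⟨f₁, h1, f₂, h2, h3⟩ := h
    cases hc : f₁.y.beq f₂.y with
    | false => rw [hc, cond_false] at h3; cases h3
    | true =>
      rw [hc, cond_true, Option.map_eq_some_iff] at h3
      obtain ⟨z, h4, rfl⟩ := h3
      have e1 := ht.get h1
      have e2 := ht.get h2
      have e3 := Pt.eq_of_beq hc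
      unfold Fact.Holds at e1 e2 ⊢
      change E (z.sem g₀ g₁ g₂) (f₁.y.sem g₀ g₁ g₂) ≤ f₁.n + f₂.n
      rw [Pt.sem_add g₀ g₁ g₂ h4]
      rw [← e3] at e2
      exact (hE.subL _ _ _).trans (add_le_add e1 e2)
  | sr i j =>
    simp only [Step.eval, Option.bind_eq_some_iff] at h
    obtain ⟨f₁, h1, f₂, h2, h3⟩ := h
    cases hc : f₁.x.beq f₂.x with
    | false => rw [hc, cond_false] at h3; cases h3
    | true =>
      rw [hc, cond_true, Option.map_eq_some_iff] at h3
      obtain ⟨z, h4, rfl⟩ := h3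
      have e1 := ht.get h1
      have e2 := ht.get h2
      have e3 := Pt.eq_of_beq hc
      unfold Fact.Holds at e1 e2 ⊢
      change E (f₁.x.sem g₀ g₁ g₂) (z.sem g₀ g₁ g₂) ≤ f₁.n + f₂.n
      rw [Pt.sem_add g₀ g₁ g₂ h4]
      rw [← e3] at e2
      exact (hE.subR _ _ _).trans (add_le_add e1 e2)
  | dl i =>
    simp only [Step.eval, Option.bind_eq_some_iff, Option.map_eq_some_iff] at h
    obtain ⟨f₁, h1, z, h4, rfl⟩ := h
    have e1 := ht.get h1
    unfold Fact.Holds at e1 ⊢
    change E (z.sem g₀ g₁ g₂) (f₁.y.sem g₀ g₁ g₂) ≤ f₁.n - 1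
    rw [Pt.sem_add g₀ g₁ g₂ h4]
    exact (hE.desL _ _).trans (Nat.sub_le_sub_right e1 1)
  | dr i =>
    simp only [Step.eval, Option.bind_eq_some_iff, Option.map_eq_some_iff] at h
    obtain ⟨f₁, h1, z, h4, rfl⟩ := h
    have e1 := ht.get h1
    unfold Fact.Holds at e1 ⊢
    change E (f₁.x.sem g₀ g₁ g₂) (z.sem g₀ g₁ g₂) ≤ f₁.n - 1
    rw [Pt.sem_add g₀ g₁ g₂ h4]
    exact (hE.desR _ _).trans (Nat.sub_le_sub_right e1 1)
  | hl i m x =>
    simp only [Step.eval, Option.bind_eq_some_iff] at h
    obtain ⟨f₁, h1, h3⟩ := h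
    cases hc : (Pt.isMul m x f₁.x && Nat.ble 1 m) with
    | false => rw [hc, cond_false] at h3; cases h3
    | true =>
      rw [hc, cond_true] at h3
      cases h3
      simp only [Bool.and_eq_true, Nat.ble_eq] at hc
      have e1 := ht.get h1
      unfold Fact.Holds at e1 ⊢
      change E (x.sem g₀ g₁ g₂) (f₁.y.sem g₀ g₁ g₂) ≤ f₁.n / m
      rw [Pt.sem_mul g₀ g₁ g₂ hc.1] at e1
      rw [Nat.le_div_iff_mul_le hc.2, mul_comm]
      exact (hE.homL _ _ _).trans e1
  | hr i m x =>
    simp only [Step.eval, Option.bind_eq_some_iff] at h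
    obtain ⟨f₁, h1, h3⟩ := h
    cases hc : (Pt.isMul m x f₁.y && Nat.ble 1 m) with
    | false => rw [hc, cond_false] at h3; cases h3
    | true =>
      rw [hc, cond_true] at h3
      cases h3
      simp only [Bool.and_eq_true, Nat.ble_eq] at hc
      have e1 := ht.get h1
      unfold Fact.Holds at e1 ⊢
      change E (f₁.x.sem g₀ g₁ g₂) (x.sem g₀ g₁ g₂) ≤ f₁.n / m
      rw [Pt.sem_mul g₀ g₁ g₂ hc.1] at e1
      rw [Nat.le_div_iff_mul_le hc.2, mul_comm]
      exact (hE.homR _ _ _).trans e1

include hE hini in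
theorem run_sound : ∀ (l : List Step) (t : FT) (n : ℕ) (t' : FT),
    t.All (Fact.Holds g₀ g₁ g₂ E) → run ini l t n = some t' → t'.All (Fact.Holds g₀ g₁ g₂ E)
  | [], t, n, t', ht, h => by
    rw [run] at h
    cases h
    exact ht
  | s :: l, t, n, t', ht, h => by
    rw [run, Option.bind_eq_some_iff] at h
    obtain ⟨f, h1, h2⟩ := h
    exact run_sound l _ _ t' (ht.put n (Step.eval_sound g₀ g₁ g₂ hE hini ht s h1)) h2

theorem zeroFact_sound {t : FT} (ht : t.All (Fact.Holds g₀ g₁ g₂ E)) {i : ℕ} {x y : Pt}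
    (h : zeroFact t i x y = true) : E (x.sem g₀ g₁ g₂) (y.sem g₀ g₁ g₂) = 0 := by
  unfold zeroFact at h
  cases hg : t.get i with
  | none => rw [hg] at h; cases h
  | some f =>
    rw [hg] at h
    simp only [Bool.and_eq_true, Nat.beq_eq] at h
    obtain ⟨⟨h1, h2⟩, h3⟩ := h
    have e := ht.get hg
    unfold Fact.Holds at e
    rw [h3, Pt.eq_of_beq h1, Pt.eq_of_beq h2] at e
    exact Nat.le_zero.mp e

theorem Tree.check_sound {t : FT} (ht : t.All (Fact.Holds g₀ g₁ g₂ E)) :
    ∀ (tr : Tree) (u v w : Pt), tr.check t u v w = true →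
      Good E (u.sem g₀ g₁ g₂) (v.sem g₀ g₁ g₂) (w.sem g₀ g₁ g₂)
  | .leaf c i j k l, u, v, w, h => by
    unfold Tree.check at h
    cases hc : Nat.beq c 0 with
    | true =>
      rw [hc, cond_true] at h
      simp only [Bool.and_eq_true] at h
      obtain ⟨⟨⟨h1, h2⟩, h3⟩, h4⟩ := h
      exact Good.leaf0 _ _ _ (zeroFact_sound g₀ g₁ g₂ ht h1) (zeroFact_sound g₀ g₁ g₂ ht h2)
        (zeroFact_sound g₀ g₁ g₂ ht h3) (zeroFact_sound g₀ g₁ g₂ ht h4)
    | false =>
      rw [hc, cond_false] at h
      cases hd : Nat.beq c 1 with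
      | true =>
        rw [hd, cond_true] at h
        simp only [Bool.and_eq_true] at h
        obtain ⟨⟨⟨h1, h2⟩, h3⟩, h4⟩ := h
        exact Good.leaf1 _ _ _ (zeroFact_sound g₀ g₁ g₂ ht h1) (zeroFact_sound g₀ g₁ g₂ ht h2)
          (zeroFact_sound g₀ g₁ g₂ ht h3) (zeroFact_sound g₀ g₁ g₂ ht h4)
      | false =>
        rw [hd, cond_false] at h
        simp only [Bool.and_eq_true] at h
        obtain ⟨⟨⟨h1, h2⟩, h3⟩, h4⟩ := h
        exact Good.leaf2 _ _ _ (zeroFact_sound g₀ g₁ g₂ ht h1) (zeroFact_sound g₀ g₁ g₂ ht h2)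
          (zeroFact_sound g₀ g₁ g₂ ht h3) (zeroFact_sound g₀ g₁ g₂ ht h4)
  | .split e t₁ t₂, u, v, w, h => by
    unfold Tree.check at h
    cases hc : Nat.beq e 0 with
    | true =>
      rw [hc, cond_true] at h
      cases hs : u.add v with
      | none => rw [hs] at h; cases h
      | some s =>
        rw [hs] at h
        simp only [Bool.and_eq_true] at h
        have e1 := Tree.check_sound ht t₁ _ _ _ h.1
        have e2 := Tree.check_sound ht t₂ _ _ _ h.2
        rw [Pt.sem_add g₀ g₁ g₂ hs] at e1 e2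
        exact Good.split0 _ _ _ e1 e2
    | false =>
      rw [hc, cond_false] at h
      cases hd : Nat.beq e 1 with
      | true =>
        rw [hd, cond_true] at h
        cases hs : u.add w with
        | none => rw [hs] at h; cases h
        | some s =>
          rw [hs] at h
          simp only [Bool.and_eq_true] at h
          have e1 := Tree.check_sound ht t₁ _ _ _ h.1
          have e2 := Tree.check_sound ht t₂ _ _ _ h.2
          rw [Pt.sem_add g₀ g₁ g₂ hs] at e1 e2
          exact Good.split1 _ _ _ e1 e2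
      | false =>
        rw [hd, cond_false] at h
        cases hs : v.add w with
        | none => rw [hs] at h; cases h
        | some s =>
          rw [hs] at h
          simp only [Bool.and_eq_true] at h
          have e1 := Tree.check_sound ht t₁ _ _ _ h.1
          have e2 := Tree.check_sound ht t₂ _ _ _ h.2
          rw [Pt.sem_add g₀ g₁ g₂ hs] at e1 e2
          exact Good.split2 _ _ _ e1 e2

include hE hini in
/-- soundness of the certificate check -/
theorem checkAll_sound (l : List Step) (tr : Tree)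
    (h : checkAll ini l tr ⟨2, 1, 1⟩ ⟨1, 2, 1⟩ ⟨1, 1, 2⟩ = true) : Good E g₀ (-g₁) (-g₂) := by
  unfold checkAll at h
  cases hr : run ini l .nil 0 with
  | none => rw [hr] at h; cases h
  | some t =>
    rw [hr] at h
    have e := Tree.check_sound g₀ g₁ g₂ (run_sound g₀ g₁ g₂ hE hini l .nil 0 t
      (show FT.All _ FT.nil from trivial) hr) tr _ _ _ h
    simpa [Pt.sem] using e

end sound

end Pool.Agent.Helper947_Fin
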