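import Pool.Agent.Helper391_TT.Codim
import Pool.Agent.Helper391_TT.Nak
import Pool.Agent.Helper947_Fin.Check

set_option autoImplicit false

/-!
The `E`-invariant of an algebra all of whose lattice points are rigid satisfies the abstract
axioms, and subdivided cones contain only finitely many indecomposable summands.
-/

namespace Pool.Agent.Helper947_Fin

open Pool.Agent.Helper391_TT

universe u

variable {k A : Type u} [Field k] [Ring A] [Algebra k A]

section sums

theorem ee_pi {J : Type} [Fintype J] (Z : J → Obj k A) (X : FM k A) :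
    ee (Obj.pi Z) X = ∑ j, ee (Z j) X := by
  have h1 := hh_sub_ee (Obj.pi Z) X
  have h2 : hh (Obj.pi Z) X = ∑ j, hh (Z j) X := by
    rw [hh_eq]
    obtain ⟨e⟩ := pi_M Z
    rw [dd_congr_left (V := (Obj.pi Z).M) (W := FM.pi fun j => (Z j).M) e, dd_pi_left]
    exact Finset.sum_congr rfl fun j _ => (hh_eq (Z j) X).symm
  have h3 : ∑ j, ((hh (Z j) X : ℤ) - ee (Z j) X) = ∑ j, chi (Z j) X :=
    Finset.sum_congr rfl fun j _ => hh_sub_ee (Z j) X
  rw [Finset.sum_sub_distrib] at h3
  rw [chi_pi, h2] at h1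
  push_cast at h1
  have h4 : (ee (Obj.pi Z) X : ℤ) = ∑ j, (ee (Z j) X : ℤ) := by linarith
  exact_mod_cast h4

theorem ee_M_pi [Module.Finite k A] {J : Type} [Fintype J] (Z : J → Obj k A) (U : Obj k A) :
    ee U (Obj.pi Z).M = ∑ j, ee U (Z j).M := by
  obtain ⟨e⟩ := pi_M Z
  rw [ee_congr U (Y := FM.pi fun j => (Z j).M) e, ee_eq_dd, dd_pi_left]
  exact Finset.sum_congr rfl fun j _ => (ee_eq_dd U (Z j).M).symm

/-- the zero object -/
abbrev zobj (k A : Type u) [Field k] [Ring A] [Algebra k A] : Obj k A :=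
  Obj.pi (fun j : Fin 0 => (Fin.elim0 j : Obj k A))

theorem chi_zobj (X : FM k A) : chi (zobj k A) X = 0 := by
  rw [chi_pi]; simp

theorem ee_zobj (X : FM k A) : ee (zobj k A) X = 0 := by
  rw [ee_pi]; simp

theorem ee_M_zobj [Module.Finite k A] (U : Obj k A) : ee U (zobj k A).M = 0 := by
  rw [ee_M_pi]; simp

/-- rigid objects minimise `ee` among objects of the same class -/
theorem ee_le_of_class (F H : Obj k A) (hH : Rigid H) (hc : ∀ X, chi H X = chi F X)
    (X : FM k A) : ee H X ≤ ee F X := by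
  have h := subA F (zobj k A) H hH (fun X => by rw [chi_zobj, add_zero, hc]) X
  rwa [ee_zobj, add_zero] at h

theorem ee_M_le_of_class [Module.Finite k A] (F H : Obj k A) (hH : Rigid H)
    (hc : ∀ X, chi H X = chi F X) (U : Obj k A) : ee U H.M ≤ ee U F.M := by
  have h := subB F (zobj k A) H hH (fun X => by rw [chi_zobj, add_zero, hc]) U
  rwa [ee_M_zobj, add_zero] at h

theorem ee_shift_eq (P : FM k A) (hP : Module.Projective A P.X) (X : FM k A) :
    ee (Obj.shift P hP) X = dd P X := by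
  have h1 := hh_sub_ee (Obj.shift P hP) X
  have h2 : hh (Obj.shift P hP) X = 0 := by
    rw [hh_eq]
    refine dd_eq_zero_of fun φ => ?_
    have := shift_M P hP
    refine LinearMap.ext fun x => ?_
    rw [Subsingleton.elim x 0, map_zero, map_zero]
  rw [chi_shift, h2] at h1
  omega

end sums

variable {ι : Type} [Fintype ι] (B : ProjBasis k A ι) (F : (ι → ℤ) → Obj k A)
  (hF : ∀ x, Rigid (F x) ∧ B.Cls (F x) x)

/-- the function `E(x, y)` -/
noncomputable def EE (x y : ι → ℤ) : ℕ := ee (F x) (F y).M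

include hF in
theorem chi_add' (x y : ι → ℤ) (X : FM k A) :
    chi (F (x + y)) X = chi (F x) X + chi (F y) X := by
  rw [(hF _).2 X, (hF _).2 X, (hF _).2 X, ← Finset.sum_add_distrib]
  exact Finset.sum_congr rfl fun i _ => by rw [Pi.add_apply]; ring

include hF in
theorem chi_nsmul (m : ℕ) (x : ι → ℤ) (X : FM k A) :
    chi (F (m • x)) X = m * chi (F x) X := by
  rw [(hF _).2 X, (hF _).2 X, Finset.mul_sum]
  exact Finset.sum_congr rfl fun i _ => by
    rw [Pi.smul_apply, nsmul_eq_mul]; ring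

include hF in
theorem ax [Module.Finite k A] : Ax (EE F) where
  subL x x' y := subA (F x) (F x') (F (x + x')) (hF _).1 (chi_add' B F hF x x') _
  subR x y y' := subB (F y) (F y') (F (y + y')) (hF _).1 (chi_add' B F hF y y') _
  desL x y := by
    have h := lemA (F y) (F x) (F (x + y)) (hF _).1 (hF _).1 (fun X => by
      rw [chi_add' B F hF, add_comm])
    unfold EE
    rcases h with h | h <;> omega
  desR x y := by
    have h := lemB (F x) (F y) (F (x + y)) (hF _).1 (hF _).1 (chi_add' B F hF x y)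
    unfold EE
    rcases h with h | h <;> omega
  homL m x y := by
    have h := ee_le_of_class (F (m • x)) (Obj.pi fun _ : Fin m => F x)
      (rigid_pi _ fun _ _ => (hF x).1) (fun X => by
        rw [chi_pi, chi_nsmul B F hF]; simp) (F y).M
    rw [ee_pi, Finset.sum_const, Finset.card_univ, Fintype.card_fin, smul_eq_mul] at h
    exact h
  homR m x y := by
    have h := ee_M_le_of_class (F (m • y)) (Obj.pi fun _ : Fin m => F y)
      (rigid_pi _ fun _ _ => (hF y).1) (fun X => by
        rw [chi_pi, chi_nsmul B F hF]; simp) (F x)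
    rw [ee_M_pi, Finset.sum_const, Finset.card_univ, Fintype.card_fin, smul_eq_mul] at h
    exact h
  diag x := (hF x).1

section basis

variable [DecidableEq ι]

/-- the class of the projective `P i` -/
abbrev bv (i : ι) : ι → ℤ := Pi.single i 1

omit F hF in
theorem cls_stalk (i : ι) : B.Cls (Obj.stalk (B.P i) (B.proj i)) (bv i) := by
  intro X
  rw [chi_stalk, Finset.sum_eq_single i]
  · simp
  · intro j _ hj
    simp [hj]
  · simp

omit F hF in
theorem cls_shift (i : ι) : B.Cls (Obj.shift (B.P i) (B.proj i)) (-bv i) := by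
  intro X
  rw [chi_shift, Finset.sum_eq_single i]
  · simp
  · intro j _ hj
    simp [hj]
  · simp

include hF in
theorem EE_pos (i : ι) (y : ι → ℤ) : EE F (bv i) y = 0 := by
  have h := ee_le_of_class (Obj.stalk (B.P i) (B.proj i)) (F (bv i)) (hF _).1
    (fun X => by rw [(hF _).2, cls_stalk B i X]) (F y).M
  rw [ee_stalk] at h
  exact Nat.le_zero.mp h

include hF in
theorem EE_neg [Module.Finite k A] (x : ι → ℤ) (i : ι) : EE F x (-bv i) = 0 := by
  have h := ee_M_le_of_class (Obj.shift (B.P i) (B.proj i)) (F (-bv i)) (hF _).1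
    (fun X => by rw [(hF _).2, cls_shift B i X]) (F x)
  rw [ee_subsingleton _ _ (shift_M (B.P i) (B.proj i))] at h
  exact Nat.le_zero.mp h

include hF in
theorem EE_le [Module.Finite k A] (i j : ι) : EE F (-bv i) (bv j) ≤ dd (B.P i) (B.P j) := by
  have h := ee_le_of_class (Obj.shift (B.P i) (B.proj i)) (F (-bv i)) (hF _).1
    (fun X => by rw [(hF _).2, cls_shift B i X]) (F (bv j)).M
  refine h.trans ?_
  have h' := ee_M_le_of_class (Obj.stalk (B.P j) (B.proj j)) (F (bv j)) (hF _).1
    (fun X => by rw [(hF _).2, cls_stalk B j X]) (Obj.shift (B.P i) (B.proj i))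
  refine h'.trans ?_
  have e : (Obj.stalk (B.P j) (B.proj j)).M.X ≃ₗ[A] (B.P j).X := by
    refine (Submodule.quotEquivOfEqBot _ ?_)
    rw [LinearMap.range_eq_bot]
  rw [ee_congr _ (Y := B.P j) e, ee_shift_eq]

end basis

section fin

/-- finitely many indecomposable modules are summands of `M_F` for rigid `F` with class in `C` -/
def FinS (C : Set (ι → ℤ)) : Prop :=
  ∃ (n : ℕ) (W : Fin n → FM k A), ∀ x ∈ C, ∀ G : Obj k A, Rigid G → B.Cls G x →
    ∀ V : FM k A, Indec A V.X → Retract A V.X G.M.X → ∃ i, Nonempty (V.X ≃ₗ[A] (W i).X)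

omit F hF in
theorem FinS.mono {C C' : Set (ι → ℤ)} (h : FinS B C') (hC : C ⊆ C') : FinS B C := by
  obtain ⟨n, W, hW⟩ := h
  exact ⟨n, W, fun x hx => hW x (hC hx)⟩

omit F hF in
theorem FinS.union {C C' : Set (ι → ℤ)} (h : FinS B C) (h' : FinS B C') :
    FinS B (C ∪ C') := by
  obtain ⟨n, W, hW⟩ := h
  obtain ⟨n', W', hW'⟩ := h'
  refine ⟨n + n', Fin.append W W', ?_⟩
  rintro x (hx | hx) G hG hc V hV hr
  · obtain ⟨i, hi⟩ := hW x hx G hG hc V hV hr
    exact ⟨Fin.castAdd n' i, by rwa [Fin.append_left]⟩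
  · obtain ⟨i, hi⟩ := hW' x hx G hG hc V hV hr
    exact ⟨Fin.natAdd n i, by rwa [Fin.append_right]⟩

omit ι B F hF [Fintype ι] in
theorem exists_summands {T : Type} [Fintype T] (O : T → FM k A) :
    ∃ (n : ℕ) (W : Fin n → FM k A), ∀ V : FM k A, Indec A V.X →
      (∃ q, Retract A V.X (O q).X) → ∃ i, Nonempty (V.X ≃ₗ[A] (W i).X) := by
  classical
  choose I fI V hV eV using fun q : T => exists_decomp (O q)
  let TT := Σ q : T, I q
  let e : TT ≃ Fin (Fintype.card TT) := Fintype.equivFin TT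
  refine ⟨Fintype.card TT, fun i => V (e.symm i).1 (e.symm i).2, ?_⟩
  intro X hX ⟨q, hq⟩
  obtain ⟨eq⟩ := eV q
  obtain ⟨i, hi⟩ := iso_of_retract_pi (hV q) hX (hq.trans (Retract.of_equiv eq))
  refine ⟨e ⟨q, i⟩, ?_⟩
  change Nonempty (X.X ≃ₗ[A] (V (e.symm (e ⟨q, i⟩)).1 (e.symm (e ⟨q, i⟩)).2).X)
  rw [Equiv.symm_apply_apply]
  exact hi

/-- cones generated by two or three lattice points -/
def cone2 (u v : ι → ℤ) : Set (ι → ℤ) := {x | ∃ a b : ℕ, x = a • u + b • v}

def cone3 (u v w : ι → ℤ) : Set (ι → ℤ) := {x | ∃ a b c : ℕ, x = a • u + b • v + c • w}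

include hF in
theorem finS_cone2 [Module.Finite k A] (u v : ι → ℤ) : FinS B (cone2 u v) := by
  obtain ⟨L, hL⟩ := cov_of_all (F u) (F v) (hF u).1 (hF v).1 (fun a b =>
    ⟨F (a • u + b • v), (hF _).1, fun X => by
      rw [chi_add' B F hF, chi_nsmul B F hF, chi_nsmul B F hF]⟩)
  obtain ⟨n, W, hW⟩ := exists_summands (fun q : Fin L.length × Bool =>
    if q.2 then (L.get q.1).F'.M else (L.get q.1).G'.M)
  refine ⟨n, W, ?_⟩
  rintro x ⟨a, b, rfl⟩ G hG hc V hV hr
  obtain ⟨p, hp, s, t, hs, ht, e1, e2⟩ := hL a b (Nat.cast_nonneg a) (Nat.cast_nonneg b)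
  obtain ⟨l, rfl⟩ := List.get_of_mem hp
  refine hW V hV ?_
  let p := L.get l
  obtain ⟨q, hq⟩ := retract_cone (fun b : Bool => if b then p.F' else p.G') (by
    rintro (_ | _) (_ | _)
    · exact p.rG
    · exact p.cmp.2
    · exact p.cmp.1
    · exact p.rF) (fun b : Bool => if b then s else t) (by
    rintro (_ | _)
    · exact ht
    · exact hs) G hG (by
    intro X
    rw [Fintype.sum_bool]
    simp only [if_true, Bool.false_eq_true, if_false]
    rw [p.hF X, p.hG X]
    have e3 : chi G X = a * chi (F u) X + b * chi (F v) X := by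
      rw [hc X, ← (hF (a • u + b • v)).2 X, chi_add' B F hF, chi_nsmul B F hF,
        chi_nsmul B F hF]
    rw [e3]
    push_cast
    rw [e1, e2]
    ring) V hV hr
  refine ⟨(l, q), ?_⟩
  cases q
  · exact hq
  · exact hq

include hF in
/-- the cone over a vertex compatible with the opposite edge -/
theorem finS_leaf [Module.Finite k A] (u v w : ι → ℤ) (h1 : EE F u v = 0) (h2 : EE F v u = 0)
    (h3 : EE F u w = 0) (h4 : EE F w u = 0) : FinS B (cone3 u v w) := by
  have hE := ax B F hF
  obtain ⟨n, W, hW⟩ := (finS_cone2 B F hF u u).union B (finS_cone2 B F hF v w)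
  refine ⟨n, W, ?_⟩
  rintro x ⟨a, b, c, rfl⟩ G hG hc V hV hr
  have z : ∀ y, EE F 0 y = 0 := fun y => by
    have := hE.homL 2 0 y
    rw [smul_zero] at this
    omega
  have z' : ∀ y, EE F y 0 = 0 := fun y => by
    have := hE.homR 2 y 0
    rw [smul_zero] at this
    omega
  have mL : ∀ (m : ℕ) (x y : ι → ℤ), EE F (m • x) y ≤ m * EE F x y := fun m x y => by
    rcases Nat.eq_zero_or_pos m with rfl | hm
    · rw [zero_smul, z]; omega
    · exact hE.smulL x y m hm
  have mR : ∀ (m : ℕ) (x y : ι → ℤ), EE F x (m • y) ≤ m * EE F x y := fun m x y => by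
    rcases Nat.eq_zero_or_pos m with rfl | hm
    · rw [zero_smul, z']; omega
    · exact hE.smulR x y m hm
  let y : ι → ℤ := b • v + c • w
  have c1 : EE F (a • u) y = 0 := by
    have h5 := mL a u y
    have h6 := hE.subR u (b • v) (c • w)
    have h7 := mR b u v
    have h8 := mR c u w
    rw [h1, mul_zero] at h7
    rw [h3, mul_zero] at h8
    have h9 : EE F u y = 0 := by
      change EE F u (b • v + c • w) = 0
      omega
    rw [h9, mul_zero] at h5
    omega
  have c2 : EE F y (a • u) = 0 := by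
    have h5 := mR a y u
    have h6 := hE.subL (b • v) (c • w) u
    have h7 := mL b v u
    have h8 := mL c w u
    rw [h2, mul_zero] at h7
    rw [h4, mul_zero] at h8
    have h9 : EE F y u = 0 := by
      change EE F (b • v + c • w) u = 0
      omega
    rw [h9, mul_zero] at h5
    omega
  let Z : Bool → Obj k A := fun b => if b then F (a • u) else F y
  have hZ : ∀ i j, ee (Z i) (Z j).M = 0 := by
    rintro (_ | _) (_ | _)
    · exact (hF y).1
    · exact c2
    · exact c1
    · exact (hF (a • u)).1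
  obtain ⟨r, hr'⟩ := retract_of_same G (Obj.comb Z fun _ => 1) hG (rigid_comb Z _ hZ) (by
    intro X
    rw [chi_comb, Fintype.sum_bool]
    simp only [Z, if_true, Bool.false_eq_true, if_false, Nat.cast_one, one_mul]
    rw [hc X, ← (hF (a • u + b • v + c • w)).2 X, ← chi_add' B F hF]
    congr 2
    exact add_assoc _ _ _)
  obtain ⟨q, -, hq⟩ := retract_comb Z (fun _ => 1) V hV r (hr.trans hr')
  cases q
  · exact hW y (Or.inr ⟨b, c, rfl⟩) (F y) (hF y).1 (hF y).2 V hV hq
  · exact hW (a • u) (Or.inl ⟨a, 0, by simp⟩) (F (a • u)) (hF _).1 (hF _).2 V hV hq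

include hF in
theorem finS_of_good [Module.Finite k A] {u v w : ι → ℤ} (h : Good (EE F) u v w) :
    FinS B (cone3 u v w) := by
  induction h with
  | leaf0 u v w h1 h2 h3 h4 => exact finS_leaf B F hF u v w h1 h2 h3 h4
  | leaf1 u v w h1 h2 h3 h4 =>
    refine (finS_leaf B F hF v w u h1 h2 h3 h4).mono B ?_
    rintro x ⟨a, b, c, rfl⟩
    exact ⟨b, c, a, by abel⟩
  | leaf2 u v w h1 h2 h3 h4 =>
    refine (finS_leaf B F hF w u v h1 h2 h3 h4).mono B ?_
    rintro x ⟨a, b, c, rfl⟩
    exact ⟨c, a, b, by abel⟩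
  | split0 u v w _ _ ih1 ih2 =>
    refine (ih1.union B ih2).mono B ?_
    rintro x ⟨a, b, c, rfl⟩
    rcases le_total b a with h | h
    · refine Or.inl ⟨a - b, b, c, ?_⟩
      obtain ⟨d, rfl⟩ := Nat.exists_eq_add_of_le h
      rw [Nat.add_sub_cancel_left, add_smul, smul_add]
      abel
    · refine Or.inr ⟨a, b - a, c, ?_⟩
      obtain ⟨d, rfl⟩ := Nat.exists_eq_add_of_le h
      rw [Nat.add_sub_cancel_left, add_smul, smul_add]
      abel
  | split1 u v w _ _ ih1 ih2 =>
    refine (ih1.union B ih2).mono B ?_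
    rintro x ⟨a, b, c, rfl⟩
    rcases le_total c a with h | h
    · refine Or.inl ⟨a - c, b, c, ?_⟩
      obtain ⟨d, rfl⟩ := Nat.exists_eq_add_of_le h
      rw [Nat.add_sub_cancel_left, add_smul, smul_add]
      abel
    · refine Or.inr ⟨a, b, c - a, ?_⟩
      obtain ⟨d, rfl⟩ := Nat.exists_eq_add_of_le h
      rw [Nat.add_sub_cancel_left, add_smul, smul_add]
      abel
  | split2 u v w _ _ ih1 ih2 =>
    refine (ih1.union B ih2).mono B ?_
    rintro x ⟨a, b, c, rfl⟩
    rcases le_total c b with h | h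
    · refine Or.inl ⟨a, b - c, c, ?_⟩
      obtain ⟨d, rfl⟩ := Nat.exists_eq_add_of_le h
      rw [Nat.add_sub_cancel_left, add_smul, smul_add]
      abel
    · refine Or.inr ⟨a, b, c - b, ?_⟩
      obtain ⟨d, rfl⟩ := Nat.exists_eq_add_of_le h
      rw [Nat.add_sub_cancel_left, add_smul, smul_add]
      abel

omit F hF in
/-- finiteness of the indecomposable `τ`-rigid modules -/
theorem tauTiltingFinite_of_finS [Module.Finite k A] (h : FinS B Set.univ) :
    TauTiltingFinite k A := by
  obtain ⟨n, W, hW⟩ := h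
  refine ⟨n, W, fun V hV hr => ?_⟩
  rw [isTauRigid_iff] at hr
  obtain ⟨S, hS⟩ := hr
  obtain ⟨g, hg⟩ := B.exists_gvec V
  refine hW g trivial S.obj ?_ (hg.cls S) V hV (Retract.of_equiv S.iso.symm)
  unfold Rigid
  rw [ee_congr S.obj (X := S.obj.M) (Y := V) S.iso]
  exact hS

end fin

end Pool.Agent.Helper947_Fin
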