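import Pool.Agent.Helper947_Fin.Check

set_option autoImplicit false
set_option maxRecDepth 100000

namespace Pool.Agent.Helper947_Fin

/-- the bilinear upper bound -/
def ini2 (x y : Pt) : Option ℕ :=
  some ((1 - x.a) * (2 * (y.a - 1) + 3 * (1 - y.b) + 3 * (1 - y.c)) +
    (x.b - 1) * (3 * (y.a - 1) + 2 * (1 - y.b) + 3 * (1 - y.c)) +
    (x.c - 1) * (3 * (y.a - 1) + 3 * (1 - y.b) + 2 * (1 - y.c)))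

def steps2 : List Step := [
.ini ⟨0,1,1⟩ ⟨2,2,1⟩, .dl 0, .ini ⟨0,1,0⟩ ⟨2,2,2⟩, .dl 2, .ini ⟨0,1,1⟩ ⟨2,1,2⟩, .dl 4, .ini
  ⟨0,0,1⟩ ⟨2,2,2⟩, .dl 6, .ini ⟨2,1,2⟩ ⟨1,1,0⟩, .dr 8, .ini ⟨2,2,1⟩ ⟨1,0,1⟩, .dr 10, .ini ⟨2,2,0⟩
  ⟨1,0,2⟩, .dr 12, .ini ⟨0,1,1⟩ ⟨2,3,1⟩, .dl 14, .ini ⟨0,1,0⟩ ⟨2,3,2⟩, .dl 16, .hl 15 2 ⟨1,2,1⟩,
  .hl 17 2 ⟨1,2,1⟩, .ini ⟨1,1,0⟩ ⟨2,2,2⟩, .sl 3 20, .ini ⟨0,1,1⟩ ⟨2,1,3⟩, .dl 22, .ini ⟨0,0,1⟩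
  ⟨2,2,3⟩, .dl 24, .hl 23 2 ⟨1,1,2⟩, .hl 25 2 ⟨1,1,2⟩, .ini ⟨1,0,1⟩ ⟨2,2,2⟩, .sl 7 28, .ini
  ⟨3,2,1⟩ ⟨0,1,1⟩, .dia ⟨3,2,1⟩ ⟨3,2,1⟩ ⟨3,2,1⟩ 1 1, .sr 30 31, .ini ⟨2,1,1⟩ ⟨2,3,1⟩, .sl 18 33,
  .ini ⟨2,1,2⟩ ⟨1,2,1⟩, .sr 35 9, .dia ⟨2,2,2⟩ ⟨2,2,2⟩ ⟨2,2,2⟩ 1 1, .sl 20 37, .ini ⟨3,1,2⟩
  ⟨0,1,1⟩, .dia ⟨3,1,2⟩ ⟨3,1,2⟩ ⟨3,1,2⟩ 1 1, .sr 39 40, .ini ⟨2,1,1⟩ ⟨2,1,3⟩, .sl 26 42, .ini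
  ⟨2,2,1⟩ ⟨1,1,2⟩, .sr 44 11, .ini ⟨2,2,0⟩ ⟨1,1,2⟩, .sr 46 13, .sl 28 37, .ini ⟨3,1,2⟩ ⟨1,1,0⟩,
  .dr 49, .ini ⟨3,2,1⟩ ⟨1,0,1⟩, .dr 51, .hr 52 2 ⟨2,1,1⟩, .hr 50 2 ⟨2,1,1⟩, .ini ⟨1,2,1⟩ ⟨2,1,1⟩,
  .sl 55 11, .sr 35 36, .dl 1, .ini ⟨3,1,2⟩ ⟨1,3,1⟩, .sr 54 59, .dl 21, .ini ⟨0,1,1⟩ ⟨3,2,2⟩, .dl
  62, .sl 1 36, .sl 18 57, .ini ⟨1,2,1⟩ ⟨2,1,2⟩, .dl 66, .ini ⟨1,1,0⟩ ⟨2,2,3⟩, .dia ⟨2,2,3⟩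
  ⟨2,2,3⟩ ⟨2,2,3⟩ 1 1, .sl 68 69, .ini ⟨1,0,1⟩ ⟨2,3,2⟩, .dia ⟨2,3,2⟩ ⟨2,3,2⟩ ⟨2,3,2⟩ 1 1, .sl 71
  72, .ini ⟨1,1,2⟩ ⟨2,1,1⟩, .sl 74 9, .sr 44 45, .dl 5, .ini ⟨3,2,1⟩ ⟨1,1,3⟩, .sr 53 78, .dl 29,
  .sr 55 1, .dr 11, .dl 47, .sr 74 5, .sr 53 83, .dr 9, .sl 1 58, .ini ⟨2,1,3⟩ ⟨1,2,1⟩, .sr 88 80,
  .dl 3, .sl 19 89, .ini ⟨2,3,2⟩ ⟨1,1,2⟩, .sr 92 90, .dl 7, .sl 5 77, .sl 7 80, .ini ⟨1,1,0⟩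
  ⟨3,3,2⟩, .dia ⟨3,3,2⟩ ⟨3,3,2⟩ ⟨3,3,2⟩ 1 1, .sl 97 98, .sr 54 60, .ini ⟨1,0,0⟩ ⟨3,4,2⟩, .dia
  ⟨3,4,2⟩ ⟨3,4,2⟩ ⟨3,4,2⟩ 1 1, .sl 101 102, .sl 76 76, .sl 82 82, .sr 1 1, .sr 58 58, .hl 99 2
  ⟨2,2,1⟩, .hl 103 2 ⟨2,2,1⟩, .sl 18 60, .ini ⟨1,1,2⟩ ⟨1,2,1⟩, .sr 111 84, .sr 35 86, .sl 26 79,
  .ini ⟨1,2,1⟩ ⟨1,1,2⟩, .sr 115 81, .sr 44 82, .ini ⟨3,3,1⟩ ⟨1,1,2⟩, .sr 118 105, .sl 11 9, .dl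
  45, .dl 36, .ini ⟨1,0,1⟩ ⟨3,2,3⟩, .dia ⟨3,2,3⟩ ⟨3,2,3⟩ ⟨3,2,3⟩ 1 1, .sl 123 124, .sl 36 36, .sl
  86 86, .sl 113 113, .sr 5 5, .sr 77 77, .sr 121 121, .hl 125 2 ⟨2,1,2⟩, .sr 11 82, .sr 9 86, .sr
  53 85, .sr 54 40, .sl 1 122, .sl 18 110, .sr 35 113, .ini ⟨3,1,3⟩ ⟨1,2,1⟩, .sr 140 128, .dl 116,
  .sl 26 104, .sr 115 106, .ini ⟨2,3,1⟩ ⟨1,1,2⟩, .sr 145 107, .dr 64, .sr 88 130, .sl 5 121, .sl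
  26 114, .sr 44 117, .sr 118 119, .dl 112, .sl 139 147, .dr 67, .dr 129, .sl 132 148, .ini
  ⟨1,0,1⟩ ⟨2,2,1⟩, .sl 158 126, .sr 56 107, .sr 54 100, .sl 45 83, .dia ⟨2,2,1⟩ ⟨2,2,1⟩ ⟨2,2,1⟩ 1
  1, .sr 163 82, .sr 35 134, .ini ⟨3,2,1⟩ ⟨1,2,1⟩, .sr 166 135, .ini ⟨3,1,2⟩ ⟨1,2,1⟩, .sr 168 136,
  .sr 44 133, .dr 120, .dl 120, .sl 164 161, .sl 86 85, .ini ⟨3,2,1⟩ ⟨1,1,2⟩, .sr 175 135, .sr 75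
  130, .dl 159, .dia ⟨2,1,2⟩ ⟨2,1,2⟩ ⟨2,1,2⟩ 1 1, .sr 179 86, .dl 87, .sl 107 107, .sr 140 141,
  .dr 144, .sl 38 90, .dr 65, .ini ⟨0,1,1⟩ ⟨4,3,3⟩, .dl 187, .sl 26 143, .sl 155 155, .sl 186 186,
  .hl 189 2 ⟨2,2,2⟩, .hl 188 2 ⟨2,2,2⟩, .sr 44 151, .sr 118 152, .sl 48 94, .dr 192, .dr 156, .dl
  95, .sl 130 130, .ini ⟨1,1,0⟩ ⟨4,4,2⟩, .dia ⟨4,4,2⟩ ⟨4,4,2⟩ ⟨4,4,2⟩ 1 1, .sl 201 202, .sr 181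
  182, .hl 203 3 ⟨2,2,1⟩, .sr 35 165, .sr 168 169, .sr 44 164, .sr 145 160, .sl 45 121, .dia
  ⟨3,2,2⟩ ⟨3,2,2⟩ ⟨3,2,2⟩ 1 1, .sr 122 211, .sr 35 180, .sr 88 177, .sr 44 170, .dl 126, .sl 179
  121, .sr 175 176, .ini ⟨1,0,1⟩ ⟨4,2,4⟩, .dia ⟨4,2,4⟩ ⟨4,2,4⟩ ⟨4,2,4⟩ 1 1, .sl 219 220, .sl 36
  126, .sr 121 131, .sr 199 200, .hl 221 3 ⟨2,1,2⟩, .ini ⟨1,1,0⟩ ⟨5,3,2⟩, .dia ⟨5,3,2⟩ ⟨5,3,2⟩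
  ⟨5,3,2⟩ 1 1, .sl 226 227, .sr 54 161, .sr 172 173, .dr 133, .sr 105 105, .hr 229 2 ⟨3,2,1⟩, .hr
  230 2 ⟨3,2,1⟩, .hl 228 2 ⟨3,2,1⟩, .dr 172, .dr 134, .sr 127 127, .sr 174 174, .ini ⟨2,2,2⟩
  ⟨1,2,1⟩, .sr 240 186, .dr 184, .sl 61 90, .sr 111 198, .ini ⟨2,2,2⟩ ⟨1,1,2⟩, .sr 245 197, .dl
  96, .sr 35 206, .sr 168 207, .ini ⟨3,2,2⟩ ⟨1,2,1⟩, .sr 250 212, .ini ⟨3,5,1⟩ ⟨1,1,2⟩, .sr 252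
  204, .sl 108 98, .dr 137, .dl 137, .sl 155 152, .sl 197 195, .sl 1 216, .sr 35 213, .sr 88 214,
  .sl 5 210, .sr 44 208, .sr 145 209, .sl 151 124, .sr 256 257, .sl 139 98, .sl 248 255, .dl 63,
  .sr 166 218, .sr 250 223, .ini ⟨3,1,5⟩ ⟨1,2,1⟩, .sr 272 224, .sr 44 215, .sl 151 157, .sl 139
  154, .dr 149, .dl 149, .sl 186 183, .sl 130 131, .ini ⟨4,2,2⟩ ⟨1,2,1⟩, .sr 281 236, .sr 44 231,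
  .sr 118 232, .sl 82 234, .dl 170, .dl 162, .sl 229 232, .sr 35 237, .sr 281 239, .ini ⟨2,1,1⟩
  ⟨2,1,2⟩, .sl 291 217, .dl 178, .sl 237 239, .sr 287 286, .dl 165, .ini ⟨2,1,2⟩ ⟨1,1,2⟩, .sr 297
  237, .sr 11 231, .sr 9 237, .sr 35 260, .ini ⟨3,3,2⟩ ⟨1,1,2⟩, .sr 302 255, .sr 252 253, .dia
  ⟨4,4,4⟩ ⟨2,2,2⟩ ⟨2,2,2⟩ 3 1, .sl 20 305, .sl 151 190, .sl 109 191, .sr 278 279, .dr 147, .dl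
  147, .ini ⟨3,2,3⟩ ⟨1,2,1⟩, .sr 312 277, .sr 272 273, .sl 28 305, .dia ⟨3,2,4⟩ ⟨3,2,4⟩ ⟨3,2,4⟩ 1
  1, .sl 194 316, .sr 256 258, .dr 155, .dl 155, .ini ⟨6,3,3⟩ ⟨0,1,1⟩, .dia ⟨6,3,3⟩ ⟨6,3,3⟩
  ⟨6,3,3⟩ 1 1, .sr 321 322, .sr 35 289, .sr 44 283, .sr 118 284, .dl 216, .dl 210, .hr 323 2
  ⟨3,2,2⟩, .sr 35 298, .dl 222, .sr 121 223, .sr 163 231, .sr 44 299, .sr 287 288, .sr 35 300, .sr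
  293 294, .sr 179 237, .sl 310 304, .ini ⟨5,4,4⟩ ⟨0,1,1⟩, .dia ⟨5,4,4⟩ ⟨5,4,4⟩ ⟨5,4,4⟩ 1 1, .sr
  340 341, .hr 342 3 ⟨2,2,2⟩, .sl 319 314, .sl 1 327, .ini ⟨2,2,1⟩ ⟨1,2,1⟩, .sr 346 325, .sr 35
  324, .ini ⟨1,0,1⟩ ⟨3,3,2⟩, .dia ⟨5,5,3⟩ ⟨3,3,2⟩ ⟨3,3,2⟩ 2 1, .sl 349 350, .sl 117 269, .sl 151
  265, .sr 256 266, .dr 259, .dl 248, .dr 142, .sr 35 330, .sl 5 328, .sr 44 325, .sr 118 326,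
  .ini ⟨1,1,0⟩ ⟨3,2,3⟩, .dia ⟨5,3,5⟩ ⟨3,2,3⟩ ⟨3,2,3⟩ 2 1, .sl 362 363, .dl 274, .sl 113 269, .sl
  139 267, .sl 348 355, .dr 262, .dr 153, .sr 280 276, .sr 44 333, .sr 35 336, .sr 44 334, .ini
  ⟨5,3,2⟩ ⟨1,1,2⟩, .sr 375 335, .ini ⟨2,1,1⟩ ⟨2,2,1⟩, .sl 377 327, .dr 171, .dl 171, .sr 35 338,
  .sr 297 338, .dr 299, .dr 300, .sr 127 238, .sr 35 348, .sl 151 307, .dl 264, .sl 319 318, .sl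
  255 255, .sr 311 311, .hl 387 2 ⟨3,3,2⟩, .hl 388 2 ⟨3,3,2⟩, .sr 346 360, .sr 35 358, .sl 151
  320, .sr 256 318, .sl 139 311, .sl 386 391, .sr 278 309, .dr 193, .dl 193, .dr 392, .dr 154, .sl
  310 309, .dl 261, .sl 277 277, .hl 406 2 ⟨3,2,3⟩, .sr 35 373, .sr 250 379, .sr 44 372, .sl 45
  328, .sr 35 381, .sr 44 374, .dl 331, .sr 35 382, .sr 122 332, .sr 44 383, .sr 293 337, .sr 380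
  380, .sr 35 384, .sr 297 384, .sr 11 383, .sr 9 384, .sl 146 311, .ini ⟨6,5,4⟩ ⟨0,1,1⟩, .dia
  ⟨6,5,4⟩ ⟨6,5,4⟩ ⟨6,5,4⟩ 1 1, .sr 426 427, .dia ⟨4,4,3⟩ ⟨4,4,3⟩ ⟨4,4,3⟩ 1 1, .sl 310 429, .sl 148
  320, .sr 346 411, .sr 35 409, .sr 250 410, .dia ⟨5,4,3⟩ ⟨5,4,3⟩ ⟨5,4,3⟩ 1 1, .sl 347 435, .dr
  345, .dl 345, .sl 361 369, .sr 35 413, .sr 44 411, .ini ⟨2,1,1⟩ ⟨2,2,2⟩, .sl 442 343, .sl 433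
  437, .dr 269, .dl 269, .sr 35 416, .sr 250 417, .sr 44 414, .sl 348 368, .dia ⟨5,3,4⟩ ⟨5,3,4⟩
  ⟨5,3,4⟩ 1 1, .sl 358 451, .dr 359, .dl 359, .sr 44 418, .sr 35 421, .sr 35 422, .sr 297 422, .sr
  163 383, .sr 44 423, .sr 35 424, .sr 179 384, .dia ⟨3,1,3⟩ ⟨2,1,2⟩ ⟨2,1,2⟩ 2 1, .sr 463 385, .sl
  310 339, .hl 465 2 ⟨3,4,2⟩, .ini ⟨6,5,4⟩ ⟨1,1,2⟩, .sr 467 428, .hr 468 4 ⟨2,2,2⟩, .sl 319 344,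
  .hl 470 2 ⟨3,2,4⟩, .sr 346 441, .sl 108 398, .sl 151 396, .sr 256 397, .sl 248 390, .dia ⟨4,3,3⟩
  ⟨4,3,3⟩ ⟨4,3,3⟩ 1 1, .sr 267 477, .dr 393, .dl 393, .sr 44 441, .sl 151 363, .sl 274 407, .sl
  139 398, .sl 386 399, .sr 278 400, .sr 265 477, .sr 474 480, .dr 408, .dl 408, .sl 489 486, .sr
  35 456, .sr 44 455, .dl 415, .dl 412, .sr 35 457, .sr 35 458, .sr 44 459, .sr 44 460, .sr 293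
  419, .sr 378 420, .sr 35 461, .sr 35 462, .sr 140 464, .dr 423, .dr 424, .sl 139 425, .sl 319
  389, .sl 301 430, .sr 343 341, .dr 401, .dl 401, .sr 507 508, .sl 151 431, .sl 310 405, .sl 1
  494, .sr 346 493, .sr 35 492, .ini ⟨2,1,1⟩ ⟨3,3,2⟩, .sl 519 473, .sl 117 446, .dia ⟨6,4,4⟩
  ⟨6,4,4⟩ ⟨6,4,4⟩ 1 1, .sl 441 522, .dl 433, .dr 352, .sr 35 496, .sl 5 495, .sr 44 493, .ini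
  ⟨2,1,1⟩ ⟨3,2,3⟩, .sl 529 482, .dl 449, .sl 113 446, .sl 440 522, .dr 366, .sr 35 497, .sr 359
  453, .sr 44 498, .sr 35 502, .sr 44 499, .sr 35 503, .sr 140 504, .sr 44 505, .sr 297 506, .sr
  346 517, .sr 35 518, .dia ⟨7,7,4⟩ ⟨3,3,2⟩ ⟨3,3,2⟩ 3 1, .sl 349 546, .sl 263 480, .sr 137 479,
  .sr 256 475, .sl 251 390, .dl 357, .dr 268, .sl 274 483, .sl 369 369, .sr 480 480, .sr 490 490,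
  .hl 554 2 ⟨4,3,3⟩, .sr 35 535, .sr 44 528, .sl 139 484, .sl 260 490, .sr 149 489, .sr 278 486,
  .sl 271 407, .dl 370, .dr 558, .sr 565 565, .sr 35 538, .sr 44 537, .sr 35 540, .sr 140 541, .sr
  44 539, .sr 44 542, .sr 293 500, .sr 378 501, .hr 575 2 ⟨5,3,2⟩, .hr 576 2 ⟨5,3,2⟩, .sr 297 543,
  .ini ⟨8,7,4⟩ ⟨0,1,1⟩, .dia ⟨8,7,4⟩ ⟨8,7,4⟩ ⟨8,7,4⟩ 1 1, .sr 580 581, .sl 255 390, .hr 582 3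
  ⟨3,3,2⟩, .sl 139 507, .sl 151 514, .sl 395 512, .sl 277 407, .sr 35 569, .dia ⟨7,5,4⟩ ⟨7,5,4⟩
  ⟨7,5,4⟩ 1 1, .sl 517 590, .dr 516, .dl 516, .ini ⟨3,2,2⟩ ⟨0,1,1⟩, .dia ⟨3,2,2⟩ ⟨9,5,5⟩ ⟨3,2,2⟩ 1
  4, .sr 594 595, .sr 35 571, .sr 140 572, .sr 44 570, .sl 441 533, .dia ⟨7,4,5⟩ ⟨7,4,5⟩ ⟨7,4,5⟩ 1
  1, .sl 528 601, .sl 518 590, .dr 446, .dl 446, .sr 44 573, .sl 526 601, .dr 527, .dl 527, .sl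
  598 604, .sr 44 574, .sr 297 579, .sl 319 508, .sl 511 513, .hl 613 2 ⟨4,4,3⟩, .hl 614 2
  ⟨4,4,3⟩, .sl 310 515, .hl 617 2 ⟨4,3,4⟩, .sl 1 593, .sl 263 548, .sr 351 437, .dl 354, .sl 519
  585, .dia ⟨7,5,5⟩ ⟨4,3,3⟩ ⟨4,3,3⟩ 2 1, .sl 263 624, .sl 360 555, .sr 353 437, .sr 620 622, .dr
  355, .dl 355, .sl 529 586, .sl 263 562, .sr 367 453, .dr 369, .dl 369, .sl 5 609, .sl 139 561,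
  .sr 364 453, .dl 371, .sr 346 611, .sr 44 611, .ini ⟨1,1,0⟩ ⟨9,5,6⟩, .dia ⟨9,5,6⟩ ⟨9,5,6⟩
  ⟨9,5,6⟩ 1 1, .sl 642 643, .ini ⟨1,0,1⟩ ⟨9,6,5⟩, .dia ⟨9,6,5⟩ ⟨9,6,5⟩ ⟨9,6,5⟩ 1 1, .sl 645 646,
  .hl 647 4 ⟨3,2,2⟩, .hl 644 4 ⟨3,2,2⟩, .sr 35 612, .sl 479 427, .sr 98 479, .sr 490 485, .sl 394
  587, .sr 469 556, .sl 652 653, .dr 402, .dl 402, .sl 489 491, .sr 346 640, .sr 346 641, .sl 117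
  605, .sl 517 603, .dl 589, .dr 521, .sl 528 607, .dl 606, .sl 113 605, .sr 609 610, .dr 532, .sr
  35 650, .sr 346 660, .sl 347 622, .dl 619, .sr 356 437, .sl 360 626, .sl 437 437, .sr 622 622,
  .sr 630 630, .hl 676 2 ⟨5,4,3⟩, .ini ⟨2,1,1⟩ ⟨4,3,3⟩, .sl 681 658, .sl 360 635, .sl 348 630, .sr
  443 604, .dr 445, .dl 445, .dr 680, .dr 368, .sl 453 453, .sr 635 635, .sr 35 671, .sl 358 639,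
  .dr 636, .dl 636, .sr 365 453, .dia ⟨9,9,5⟩ ⟨3,3,2⟩ ⟨3,3,2⟩ 4 1, .sl 349 697, .sl 472 651, .dia
  ⟨7,6,4⟩ ⟨7,6,4⟩ ⟨7,6,4⟩ 1 1, .sr 547 700, .dr 549, .dl 549, .dr 476, .sr 484 557, .sl 260 658,
  .dia ⟨9,5,9⟩ ⟨3,2,3⟩ ⟨3,2,3⟩ 4 1, .sl 362 707, .sl 481 659, .sr 561 568, .dr 563, .dl 563, .dr
  483, .sl 255 583, .sl 277 588, .sl 347 684, .sl 441 687, .dr 439, .sl 449 690, .sl 440 687, .dr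
  450, .sl 360 693, .sl 545 703, .sl 260 706, .sl 559 712, .sl 347 716, .sl 441 717, .sr 438 718,
  .sl 434 677, .sr 520 665, .dr 525, .dl 525, .dr 444, .sl 449 719, .sl 604 604, .hl 734 2
  ⟨6,4,4⟩, .sl 360 722, .sl 440 720, .sr 454 721, .sl 448 690, .sr 530 670, .dr 534, .dl 534, .dr
  736, .dr 536, .ini ⟨5,4,3⟩ ⟨1,2,1⟩, .sr 746 731, .sl 544 723, .sl 249 714, .sr 584 678, .sr 623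
  679, .sl 629 628, .dr 552, .dl 552, .ini ⟨5,3,4⟩ ⟨1,2,1⟩, .sr 755 745, .sl 560 725, .sl 260 724,
  .sl 270 715, .sr 637 694, .sr 631 691, .dr 566, .dl 566, .sr 484 705, .sr 658 656, .hr 764 2
  ⟨6,5,4⟩, .hr 765 2 ⟨6,5,4⟩, .sl 432 729, .sl 517 732, .sr 438 728, .sl 599 735, .sl 597 735, .sl
  447 740, .sl 526 743, .sr 454 739, .sl 432 768, .sl 517 769, .sr 438 770, .sr 524 592, .sl 599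
  771, .sr 446 733, .hr 781 2 ⟨7,5,4⟩, .hl 780 2 ⟨7,5,4⟩, .sl 597 772, .sr 446 744, .hr 785 2
  ⟨7,4,5⟩, .hl 784 2 ⟨7,4,5⟩, .sl 447 773, .sl 526 774, .sr 454 775, .sr 531 608, .sl 661 665, .sr
  749 754, .sr 758 763, .sr 759 763, .ini ⟨2,1,1⟩ ⟨3,1,2⟩, .ini ⟨2,1,1⟩ ⟨3,2,1⟩, .ini ⟨2,1,3⟩
  ⟨1,1,2⟩, .ini ⟨3,2,5⟩ ⟨1,1,2⟩, .ini ⟨2,3,1⟩ ⟨1,2,1⟩, .ini ⟨3,5,2⟩ ⟨1,2,1⟩, .ini ⟨2,2,3⟩ ⟨1,1,2⟩,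
  .ini ⟨2,3,2⟩ ⟨1,2,1⟩]

def tree2 : Tree :=
(.split 0 (.split 1 (.split 0 (.split 1 (.leaf 0 797 53 796 54) (.leaf 0 233 85 41 86)) (.split 2
  (.leaf 1 117 122 82 32) (.split 0 (.split 1 (.leaf 0 235 285 167 234) (.split 1 (.leaf 0 282 286
  290 296) (.leaf 0 577 295 292 289))) (.split 1 (.leaf 2 578 376 329 379) (.leaf 1 121 113 379
  329))))) (.split 2 (.split 2 (.split 1 (.split 0 (.split 1 (.split 1 (.leaf 0 113 121 447 454)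
  (.split 2 (.split 0 (.split 0 (.leaf 1 789 791 788 790) (.leaf 2 791 789 608 607)) (.split 2
  (.leaf 2 667 669 668 649) (.leaf 2 608 607 670 666))) (.split 2 (.leaf 2 740 739 743 741) (.leaf
  2 453 452 742 737)))) (.split 2 (.split 0 (.split 0 (.leaf 1 738 744 737 742) (.leaf 2 744 738
  786 533)) (.split 2 (.leaf 2 602 787 605 596) (.leaf 2 786 533 604 600))) (.split 2 (.leaf 2 683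
  689 687 685) (.leaf 1 682 686 683 689)))) (.split 2 (.split 2 (.leaf 1 432 438 117 122) (.split
  1 (.split 0 (.split 1 (.leaf 2 662 648 664 792) (.leaf 2 665 663 592 591)) (.split 0 (.leaf 2
  592 591 779 777) (.leaf 0 776 778 777 779))) (.split 1 (.leaf 2 732 730 729 728) (.leaf 2 731
  726 437 436)))) (.split 1 (.split 0 (.split 1 (.leaf 2 605 596 603 783) (.leaf 2 604 600 782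
  523)) (.split 0 (.leaf 2 782 523 733 727) (.leaf 0 726 731 727 733))) (.split 1 (.leaf 2 687 685
  684 688) (.leaf 0 684 688 682 686))))) (.split 0 (.split 2 (.split 0 (.leaf 0 629 625 553 548)
  (.split 2 (.leaf 1 747 754 627 630) (.leaf 1 748 753 752 751))) (.split 1 (.leaf 0 553 548 478
  480) (.split 2 (.leaf 2 699 704 703 701) (.leaf 2 479 473 702 698)))) (.split 1 (.split 2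
  (.split 2 (.leaf 2 673 675 674 672) (.leaf 0 675 673 621 622)) (.split 1 (.leaf 0 621 622 747
  754) (.leaf 0 793 750 748 753))) (.split 2 (.leaf 2 550 551 256 205) (.leaf 1 254 255 550
  551))))) (.split 1 (.split 0 (.split 0 (.split 2 (.split 1 (.split 1 (.leaf 2 695 692 693 696)
  (.leaf 1 638 639 696 693)) (.split 2 (.leaf 1 756 763 638 639) (.leaf 1 757 762 795 760)))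
  (.split 1 (.leaf 2 278 225 564 565) (.leaf 0 564 565 275 277))) (.split 1 (.split 0 (.split 1
  (.leaf 0 633 635 756 763) (.leaf 0 794 761 757 762)) (.leaf 1 567 562 634 632)) (.split 2 (.leaf
  1 487 490 567 562) (.split 1 (.leaf 2 712 710 709 713) (.leaf 2 711 708 489 482))))) (.split 0
  (.split 1 (.leaf 0 478 480 487 490) (.leaf 0 766 488 482 489)) (.split 2 (.leaf 1 403 398 479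
  473) (.split 1 (.leaf 2 767 655 654 657) (.leaf 1 396 404 657 654))))) (.split 2 (.split 0
  (.split 1 (.leaf 1 510 512 396 404) (.leaf 0 512 510 509 616)) (.leaf 1 303 311 403 398))
  (.split 1 (.leaf 2 320 313 618 615) (.leaf 2 319 315 310 306))))) (.split 0 (.split 1 (.leaf 2
  77 43 148 150) (.leaf 0 148 150 798 26)) (.split 1 (.split 0 (.leaf 1 317 471 320 313) (.leaf 1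
  197 196 319 315)) (.split 1 (.leaf 1 246 247 197 196) (.leaf 0 247 246 799 244)))))) (.split 1
  (.split 1 (.split 0 (.leaf 1 146 138 58 34) (.leaf 0 800 18 146 138)) (.split 0 (.split 1 (.leaf
  2 311 303 308 466) (.leaf 2 310 306 186 185)) (.split 0 (.leaf 2 186 185 241 243) (.leaf 0 801
  242 243 241)))) (.split 0 (.split 1 (.leaf 0 73 90 70 94) (.leaf 0 91 93 802 27)) (.leaf 1 115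
  111 19 803))))

theorem check2 : checkAll ini2 steps2 tree2 ⟨2, 1, 1⟩ ⟨1, 2, 1⟩ ⟨1, 1, 2⟩ = true := by
  decide +kernel

end Pool.Agent.Helper947_Fin
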