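import Pool.Agent.Helper947_Fin.Assemble
import Pool.Agent.Helper947_Fin.Cert2

set_option autoImplicit false

/-!
Three indecomposable projectives with endomorphism algebras of dimension at most two.
-/

namespace Pool.Agent.Helper947_Fin

open Pool.Agent.Helper391_TT

universe u

theorem good2 {L : Type*} [AddCommGroup L] {E : L → L → ℕ} (hE : Ax E) (g : Fin 3 → L)
    (hP : ∀ i y, E (g i) y = 0) (hN : ∀ x i, E x (-g i) = 0) (hd : ∀ i, E (-g i) (g i) ≤ 2) :
    Good E (g 0) (-g 1) (-g 2) := by
  have h3 : ∀ i j, E (-g i) (g j) ≤ 3 := fun i j =>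
    hE.offdiag (g i) (g j) (hP _ _) 2 2 (hd i) (hd j)
  refine checkAll_sound (g 0) (g 1) (g 2) hE (ini := ini2) ?_ steps2 tree2 check2
  intro x y n h
  have h' := le_bilD hE g hP hN (fun i j => if i = j then 2 else 3) (fun i j => by
    split_ifs with hij
    · rw [hij]; exact hd j
    · exact h3 i j) x y
  refine h'.trans ?_
  unfold ini2 at h
  cases h
  simp only [bilD, Pt.pos, Pt.neg, Matrix.cons_val_zero, Matrix.cons_val_one, Matrix.cons_val]
  apply le_of_eq
  simp
  ring

end Pool.Agent.Helper947_Fin
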