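import Pool.Agent.Helper947_Fin.Assemble
import Pool.Agent.Helper947_Fin.CertQ23
import Pool.Agent.Helper947_Fin.CertQ15

set_option autoImplicit false

/-!
Mixed orthants whose two defects are small; the defects between opposite vectors do not matter.
-/

namespace Pool.Agent.Helper947_Fin

open Pool.Agent.Helper391_TT

universe u

section abstract

variable {L : Type*} [AddCommGroup L] {E : L → L → ℕ}

theorem Good.swap {u v w : L} (h : Good E u v w) : Good E u w v := by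
  induction h with
  | leaf0 u v w h1 h2 h3 h4 => exact Good.leaf0 _ _ _ h3 h4 h1 h2
  | leaf1 u v w h1 h2 h3 h4 => exact Good.leaf2 _ _ _ h3 h4 h1 h2
  | leaf2 u v w h1 h2 h3 h4 => exact Good.leaf1 _ _ _ h3 h4 h1 h2
  | split0 u v w _ _ ih1 ih2 => exact Good.split1 _ _ _ ih1 ih2
  | split1 u v w _ _ ih1 ih2 => exact Good.split0 _ _ _ ih1 ih2
  | split2 u v w _ _ ih1 ih2 =>
    rw [add_comm] at ih1 ih2
    exact Good.split2 _ _ _ ih2 ih1

theorem le_orth (hE : Ax E) (g : Fin 3 → L) (hP : ∀ i y, E (g i) y = 0)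
    (hN : ∀ x i, E x (-g i) = 0) (p q : ℕ) (hp : E (-g 1) (g 0) ≤ p)
    (hq : E (-g 2) (g 0) ≤ q) (x y : Pt) (hx : 1 ≤ x.a) (hb : 1 ≤ y.b) (hc : 1 ≤ y.c) :
    E (x.sem (g 0) (g 1) (g 2)) (y.sem (g 0) (g 1) (g 2)) ≤
      ((x.b - 1) * p + (x.c - 1) * q) * (y.a - 1) := by
  refine (le_bilD hE g hP hN (fun i j => E (-g i) (g j)) (fun i j => le_rfl) x y).trans ?_
  simp only [bilD, Pt.pos, Pt.neg, Matrix.cons_val_zero, Matrix.cons_val_one, Matrix.cons_val]
  rw [Nat.sub_eq_zero_of_le hx, Nat.sub_eq_zero_of_le hb, Nat.sub_eq_zero_of_le hc]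
  simp only [zero_mul, add_zero, zero_add]
  rw [add_mul]
  refine add_le_add ?_ ?_
  · calc (x.b - 1) * ((y.a - 1) * E (-g 1) (g 0)) ≤ (x.b - 1) * ((y.a - 1) * p) := by gcongr
      _ = (x.b - 1) * p * (y.a - 1) := by ring
  · calc (x.c - 1) * ((y.a - 1) * E (-g 2) (g 0)) ≤ (x.c - 1) * ((y.a - 1) * q) := by gcongr
      _ = (x.c - 1) * q * (y.a - 1) := by ring

theorem good23 (hE : Ax E) (g : Fin 3 → L) (hP : ∀ i y, E (g i) y = 0)
    (hN : ∀ x i, E x (-g i) = 0) (hp : E (-g 1) (g 0) ≤ 2)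
    (hq : E (-g 2) (g 0) ≤ 3) : Good E (g 0) (-g 1) (-g 2) := by
  refine checkAll_sound (g 0) (g 1) (g 2) hE (ini := iniQ23) ?_ stepsQ23 treeQ23 checkQ23
  intro x y n h
  unfold iniQ23 at h
  cases hc : (Nat.ble 1 x.a && Nat.ble 1 x.b && Nat.ble 1 x.c && Nat.ble 1 y.a && Nat.ble 1 y.b &&
      Nat.ble 1 y.c) with
  | false => rw [hc, cond_false] at h; cases h
  | true =>
    rw [hc, cond_true] at h
    cases h
    simp only [Bool.and_eq_true, Nat.ble_eq] at hc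
    exact le_orth hE g hP hN 2 3 hp hq x y hc.1.1.1.1.1 hc.1.2 hc.2

theorem good15 (hE : Ax E) (g : Fin 3 → L) (hP : ∀ i y, E (g i) y = 0)
    (hN : ∀ x i, E x (-g i) = 0) (hp : E (-g 1) (g 0) ≤ 1)
    (hq : E (-g 2) (g 0) ≤ 5) : Good E (g 0) (-g 1) (-g 2) := by
  refine checkAll_sound (g 0) (g 1) (g 2) hE (ini := iniQ15) ?_ stepsQ15 treeQ15 checkQ15
  intro x y n h
  unfold iniQ15 at h
  cases hc : (Nat.ble 1 x.a && Nat.ble 1 x.b && Nat.ble 1 x.c && Nat.ble 1 y.a && Nat.ble 1 y.b &&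
      Nat.ble 1 y.c) with
  | false => rw [hc, cond_false] at h; cases h
  | true =>
    rw [hc, cond_true] at h
    cases h
    simp only [Bool.and_eq_true, Nat.ble_eq] at hc
    exact le_orth hE g hP hN 1 5 hp hq x y hc.1.1.1.1.1 hc.1.2 hc.2

/-- an orthant with one positive and two negative directions and small defects -/
theorem goodQ (hE : Ax E) (a b c : L) (ha : ∀ y, E a y = 0) (hb : ∀ y, E b y = 0)
    (hc : ∀ y, E c y = 0) (ha' : ∀ x, E x (-a) = 0) (hb' : ∀ x, E x (-b) = 0)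
    (hc' : ∀ x, E x (-c) = 0) (p q : ℕ) (hp : E (-b) a ≤ p) (hq : E (-c) a ≤ q)
    (hpq : p + q ≤ 5 ∨ p * q ≤ 5) : Good E a (-b) (-c) := by
  have key : ∀ b c : L, (∀ y, E b y = 0) → (∀ y, E c y = 0) → (∀ x, E x (-b) = 0) →
      (∀ x, E x (-c) = 0) →
      ((E (-b) a ≤ 2 ∧ E (-c) a ≤ 3) ∨ (E (-b) a ≤ 1 ∧ E (-c) a ≤ 5) ∨ E (-b) a = 0) →
        Good E a (-b) (-c) := by
    intro b c hb hc hb' hc' h
    have hP : ∀ (i : Fin 3) y, E ((![a, b, c] : Fin 3 → L) i) y = 0 := by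
      intro i y
      fin_cases i
      · exact ha y
      · exact hb y
      · exact hc y
    have hN : ∀ x (i : Fin 3), E x (-(![a, b, c] : Fin 3 → L) i) = 0 := by
      intro x i
      fin_cases i
      · exact ha' x
      · exact hb' x
      · exact hc' x
    rcases h with h | h | h
    · exact good23 hE ![a, b, c] hP hN h.1 h.2
    · exact good15 hE ![a, b, c] hP hN h.1 h.2
    · exact Good.leaf1 _ _ _ (hc' _) (hb' _) h (ha _)
  by_cases h1 : (E (-b) a ≤ 2 ∧ E (-c) a ≤ 3) ∨ (E (-b) a ≤ 1 ∧ E (-c) a ≤ 5) ∨ E (-b) a = 0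
  · exact key b c hb hc hb' hc' h1
  by_cases h2 : (E (-c) a ≤ 2 ∧ E (-b) a ≤ 3) ∨ (E (-c) a ≤ 1 ∧ E (-b) a ≤ 5) ∨ E (-c) a = 0
  · exact (key c b hc hb hc' hb' h2).swap
  exfalso
  generalize E (-b) a = r at *
  generalize E (-c) a = s at *
  have hrs : r + s ≤ 5 ∨ r * s ≤ 5 := by
    rcases hpq with h | h
    · exact Or.inl (by omega)
    · exact Or.inr ((Nat.mul_le_mul hp hq).trans h)
  have hr : 0 < r := by omega
  have hs : 0 < s := by omega
  rcases hrs with h | h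
  · omega
  · have h3 : r ≤ 5 := (Nat.le_mul_of_pos_right r hs).trans h
    have h4 : s ≤ 5 := (Nat.le_mul_of_pos_left s hr).trans h
    interval_cases r <;> interval_cases s <;> omega

end abstract

section final

variable {k A : Type u} [Field k] [Ring A] [Algebra k A] {ι : Type} [Fintype ι] [DecidableEq ι]
  (B : ProjBasis k A ι) (F : (ι → ℤ) → Obj k A) (hF : ∀ x, Rigid (F x) ∧ B.Cls (F x) x)

include hF in
/-- it is enough to subdivide the six mixed orthants -/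
theorem finite_of_good6 [Module.Finite k A] (i j l : ι) (hall : ∀ a, a = i ∨ a = j ∨ a = l)
    (g1 : Good (EE F) (bv i) (-bv j) (-bv l)) (g2 : Good (EE F) (bv j) (-bv i) (-bv l))
    (g3 : Good (EE F) (bv l) (-bv i) (-bv j)) (g4 : Good (EE F) (-bv i) (bv j) (bv l))
    (g5 : Good (EE F) (-bv j) (bv i) (bv l)) (g6 : Good (EE F) (-bv l) (bv i) (bv j)) :
    TauTiltingFinite k A := by
  apply tauTiltingFinite_of_finS B
  have c0 : FinS B (cone3 (bv i) (bv j) (bv l)) := finS_of_good B F hF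
    (Good.leaf0 _ _ _ (EE_pos B F hF _ _) (EE_pos B F hF _ _) (EE_pos B F hF _ _)
      (EE_pos B F hF _ _))
  have c0' : FinS B (cone3 (-bv i) (-bv j) (-bv l)) := finS_of_good B F hF
    (Good.leaf0 _ _ _ (EE_neg B F hF _ _) (EE_neg B F hF _ _) (EE_neg B F hF _ _)
      (EE_neg B F hF _ _))
  have d1 := finS_of_good B F hF g1
  have d2 := finS_of_good B F hF g2
  have d3 := finS_of_good B F hF g3
  have d4 := finS_of_good B F hF g4
  have d5 := finS_of_good B F hF g5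
  have d6 := finS_of_good B F hF g6
  refine FinS.mono B (((((((c0.union B c0').union B d1).union B d2).union B d3).union B
    d4).union B d5).union B d6) ?_
  intro x _
  -- integer coordinates
  obtain ⟨a, b, c, hx⟩ : ∃ a b c : ℤ, x = a • bv i + b • bv j + c • bv l := by
    refine ⟨x i, if j = i then 0 else x j, if l = i ∨ l = j then 0 else x l, ?_⟩
    funext m
    simp only [Pi.add_apply, Pi.smul_apply, bv, Pi.single_apply, smul_eq_mul, mul_ite, mul_one,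
      mul_zero]
    rcases hall m with h | h | h <;> by_cases hij : i = j <;> by_cases hil : i = l <;>
      by_cases hjl : j = l <;> simp_all [eq_comm]
  have ip : ∀ z : ℤ, (∃ n : ℕ, z = n) ∨ ∃ n : ℕ, z = -n := fun z => by
    obtain ⟨n, rfl | rfl⟩ := z.eq_nat_or_neg
    · exact Or.inl ⟨n, rfl⟩
    · exact Or.inr ⟨n, rfl⟩
  have sp : ∀ (n : ℕ) (y : ι → ℤ), (n : ℤ) • y = n • y := fun n y => natCast_zsmul y n
  have sn : ∀ (n : ℕ) (y : ι → ℤ), (-(n : ℤ)) • y = n • (-y) := fun n y => by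
    rw [neg_smul, smul_neg, natCast_zsmul]
  simp only [Set.mem_union]
  rcases ip a with ⟨a, rfl⟩ | ⟨a, rfl⟩ <;> rcases ip b with ⟨b, rfl⟩ | ⟨b, rfl⟩ <;>
    rcases ip c with ⟨c, rfl⟩ | ⟨c, rfl⟩ <;> simp only [sp, sn] at hx
  · exact Or.inl (Or.inl (Or.inl (Or.inl (Or.inl (Or.inl (Or.inl ⟨a, b, c, hx⟩))))))
  · exact Or.inr ⟨c, a, b, by rw [hx]; abel⟩
  · exact Or.inl (Or.inr ⟨b, a, c, by rw [hx]; abel⟩)
  · exact Or.inl (Or.inl (Or.inl (Or.inl (Or.inl (Or.inr ⟨a, b, c, hx⟩)))))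
  · exact Or.inl (Or.inl (Or.inr ⟨a, b, c, hx⟩))
  · exact Or.inl (Or.inl (Or.inl (Or.inl (Or.inr ⟨b, a, c, by rw [hx]; abel⟩))))
  · exact Or.inl (Or.inl (Or.inl (Or.inr ⟨c, a, b, by rw [hx]; abel⟩)))
  · exact Or.inl (Or.inl (Or.inl (Or.inl (Or.inl (Or.inl (Or.inr ⟨a, b, c, hx⟩))))))

end final

end Pool.Agent.Helper947_Fin
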